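import Mathlib

/-! # Two urns, k = n/2 balls moved from each urn: mixing in bounded time (MP_1e2081_pr, Q2)
Definitions and statements of the pieces. -/

open Filter Topology

namespace Pool.Agent.R548.BL

/-- probability that a uniformly random set of `j` of `N` balls, `K` of them red, has exactly `x`
red balls (`x ≤ j`) -/
noncomputable def hyp (N K j x : ℕ) : ℝ :=
  ((K.choose x : ℝ) * ((N - K).choose (j - x) : ℝ)) / (N.choose j : ℝ)

/-- transition matrix of the discrete skeleton: the state is the number `a` of red balls in urn 1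
(two urns of `n` balls, `n` red balls in all); `x` = number of red balls among the `n - k` balls
of urn 1 that stay, `y` = number of red balls among the `k` balls that come from urn 2 -/
noncomputable def M (n k : ℕ) : Matrix (Fin (n + 1)) (Fin (n + 1)) ℝ := fun a b =>
  ∑ x ∈ Finset.range (n - k + 1), ∑ y ∈ Finset.range (k + 1),
    if x + y = (b : ℕ) then hyp n a (n - k) x * hyp n (n - a) k y else 0

/-- the stationary distribution -/
noncomputable def st (n : ℕ) (b : Fin (n + 1)) : ℝ := (n.choose b : ℝ) ^ 2 / ((2 * n).choose n : ℝ)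

/-- law at time `t` of the rate one continuous time chain with transition matrix `P` -/
noncomputable def law {N : ℕ} (P : Matrix (Fin N) (Fin N) ℝ) (t : ℝ) (a b : Fin N) : ℝ :=
  ∑' j : ℕ, Real.exp (-t) * t ^ j / (j.factorial : ℝ) * (P ^ j) a b

/-- maximal total variation distance to `q` at time `t` -/
noncomputable def dmax {N : ℕ} (P : Matrix (Fin N) (Fin N) ℝ) (q : Fin N → ℝ) (t : ℝ) : ℝ :=
  ⨆ a : Fin N, (1 / 2) * ∑ b, |law P t a b - q b|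

/-- mixing time -/
noncomputable def tmix {N : ℕ} (P : Matrix (Fin N) (Fin N) ℝ) (q : Fin N → ℝ) (ε : ℝ) : ℝ :=
  sInf {t : ℝ | 0 ≤ t ∧ dmax P q t ≤ ε}

/-- one step from `a`, `n = 2h`, `k = h`, applied to `f : ℕ → ℝ` -/
noncomputable def T (h : ℕ) (f : ℕ → ℝ) (a : ℕ) : ℝ :=
  (∑ x ∈ Finset.range (h + 1), ∑ y ∈ Finset.range (h + 1),
    ((a.choose x : ℝ) * ((2 * h - a).choose (h - x) : ℝ)) *
      (((2 * h - a).choose y : ℝ) * (a.choose (h - y) : ℝ)) * f (x + y)) /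
    ((2 * h).choose h : ℝ) ^ 2

/-! ### Statements of the pieces -/

/-- ID: difference of two neighbouring rows (`p = a` red, `q = m - a`, `p + q = 2 h - 1`) -/
def S_ID : Prop := ∀ (h p q : ℕ) (f : ℕ → ℝ), 1 ≤ h → p + q + 1 = 2 * h →
  (h : ℝ) * (∑ x ∈ Finset.range (h + 1), ∑ y ∈ Finset.range (h + 1),
      ((((p + 1).choose x : ℝ) * (q.choose (h - x) : ℝ)) *
        ((q.choose y : ℝ) * ((p + 1).choose (h - y) : ℝ)) * f (x + y)
      - ((p.choose x : ℝ) * ((q + 1).choose (h - x) : ℝ)) *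
        (((q + 1).choose y : ℝ) * (p.choose (h - y) : ℝ)) * f (x + y))) =
  ∑ x ∈ Finset.range h, ∑ y ∈ Finset.range h,
    ((p.choose x : ℝ) * (q.choose (h - 1 - x) : ℝ)) *
      ((q.choose y : ℝ) * (p.choose (h - 1 - y) : ℝ)) *
      (((q : ℝ) - p + x - y) * (f (x + y + 2) - 2 * f (x + y + 1) + f (x + y)))

/-- MOM: mean and variance of the hypergeometric distribution -/
def S_MOM : Prop := ∀ (K L j : ℕ), 1 ≤ j → 2 ≤ K + L → j ≤ K + L →
  (∑ x ∈ Finset.range (j + 1), (K.choose x : ℝ) * (L.choose (j - x) : ℝ)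
      = ((K + L).choose j : ℝ)) ∧
  (∑ x ∈ Finset.range (j + 1), (K.choose x : ℝ) * (L.choose (j - x) : ℝ) *
      ((x : ℝ) - j * K / ((K : ℝ) + L)) = 0) ∧
  (∑ x ∈ Finset.range (j + 1), (K.choose x : ℝ) * (L.choose (j - x) : ℝ) *
      ((x : ℝ) - j * K / ((K : ℝ) + L)) ^ 2 ≤ (j : ℝ) / 4 * ((K + L).choose j : ℝ))

/-- KEY: three steps make the law almost independent of the starting point -/
def S_KEY : Prop := ∀ (h : ℕ), 2 ≤ h → ∀ f : ℕ → ℝ, (∀ i, 0 ≤ f i ∧ f i ≤ 1) →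
  ∀ a b : ℕ, a ≤ 2 * h → b ≤ 2 * h →
    |T h (T h (T h f)) a - T h (T h (T h f)) b| ≤ 3 / √(h : ℝ)

/-- MAT: the matrix is stochastic, `st` is a stationary probability vector, and `M (2h) h` is `T` -/
def S_MAT : Prop := ∀ (h : ℕ), 1 ≤ h →
  (∀ a b, 0 ≤ M (2 * h) h a b) ∧ (∀ a, ∑ b, M (2 * h) h a b = 1) ∧
  (∀ b, 0 ≤ st (2 * h) b) ∧ (∑ b, st (2 * h) b = 1) ∧
  (∀ b, ∑ a, st (2 * h) a * M (2 * h) h a b = st (2 * h) b) ∧
  (∀ (f : ℕ → ℝ) (a : Fin (2 * h + 1)), ∑ b, M (2 * h) h a b * f b = T h f a)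

/-- LAW: continuous time, abstract -/
def S_LAW : Prop := ∀ (N : ℕ) (P : Matrix (Fin N) (Fin N) ℝ) (q : Fin N → ℝ) (δ : ℝ),
  0 < N → 0 ≤ δ → (∀ a b, 0 ≤ P a b) → (∀ a, ∑ b, P a b = 1) → (∀ b, 0 ≤ q b) → (∑ b, q b = 1) →
  (∀ b, ∑ a, q a * P a b = q b) →
  (∀ f : Fin N → ℝ, (∀ i, 0 ≤ f i ∧ f i ≤ 1) → ∀ a b,
    |∑ c, (P ^ 3) a c * f c - ∑ c, (P ^ 3) b c * f c| ≤ δ) →
  ∀ t : ℝ, 0 ≤ t → dmax P q t ≤ Real.exp (-t) * (1 + t + t ^ 2 / 2) + δ ∧
    ∀ a, Real.exp (-t) - q a ≤ dmax P q t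

/-- FIN: the bounds give the conclusions -/
def S_FIN : Prop :=
  (∀ (h : ℕ), 2 ≤ h → ∀ t : ℝ, 0 ≤ t →
    dmax (M (2 * h) h) (st (2 * h)) t ≤ Real.exp (-t) * (1 + t + t ^ 2 / 2) + 3 / √(h : ℝ) ∧
      ∀ a, Real.exp (-t) - st (2 * h) a ≤ dmax (M (2 * h) h) (st (2 * h)) t) →
  (∀ᶠ h : ℕ in atTop, tmix (M (2 * h) h) (st (2 * h)) (1 / 4) ≤ 8 ∧
    3 ≤ tmix (M (2 * h) h) (st (2 * h)) (1 / 100) ∧
    tmix (M (2 * h) h) (st (2 * h)) (99 / 100) ≤ 1) ∧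
  (¬ Tendsto (fun n : ℕ => tmix (M n (n / 2)) (st n) (1 / 100) /
    tmix (M n (n / 2)) (st n) (99 / 100)) atTop (𝓝 1)) ∧
  ¬ ∃ c : ℝ, 0 < c ∧ ∀ᶠ n : ℕ in atTop, c * Real.log n ≤ tmix (M n (n / 2)) (st n) (1 / 4)

end Pool.Agent.R548.BL
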