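import Pool.Agent.R548.BL.Defs

/-! # BL-FIN: the bounds give the conclusions -/

open Filter Topology

namespace Pool.Agent.R548.BL

theorem FIN_sqrt {h : ℕ} (hh : 10 ^ 6 ≤ h) : 3 / √(h : ℝ) ≤ 3 / 1000 := by
  have h1 : (1000 : ℝ) ≤ √(h : ℝ) := by
    apply Real.le_sqrt_of_sq_le
    have : ((10 ^ 6 : ℕ) : ℝ) ≤ h := by exact_mod_cast hh
    push_cast at this
    norm_num at this ⊢
    linarith
  exact div_le_div_of_nonneg_left (by norm_num) (by norm_num) h1

theorem FIN_st {h : ℕ} (hh : 10 ^ 6 ≤ h) : st (2 * h) 0 ≤ 1 / 100 := by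
  unfold st
  have h1 : 100 ≤ (2 * (2 * h)).choose (2 * h) := by
    have h2 := Nat.choose_le_centralBinom 1 (2 * h)
    rw [Nat.choose_one_right] at h2
    have h3 : (2 * (2 * h)).choose (2 * h) = Nat.centralBinom (2 * h) := rfl
    rw [h3]
    omega
  have h4 : (100 : ℝ) ≤ ((2 * (2 * h)).choose (2 * h) : ℝ) := by exact_mod_cast h1
  have e : (((2 * h).choose ((0 : Fin (2 * h + 1)) : ℕ) : ℕ) : ℝ) ^ 2 = 1 := by
    simp
  rw [e]
  exact one_div_le_one_div_of_le (by norm_num) h4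

theorem FIN_exp_neg {m : ℕ} : Real.exp (-(m : ℝ)) ≤ (1 / 2) ^ m := by
  have h1 : Real.exp (-(m : ℝ)) = (Real.exp (-1)) ^ m := by
    rw [← Real.exp_nat_mul]
    congr 1
    ring
  rw [h1]
  refine pow_le_pow_left₀ (Real.exp_pos _).le ?_ m
  rw [Real.exp_neg, one_div]
  exact inv_anti₀ (by norm_num) (by linarith [Real.exp_one_gt_d9])

theorem FIN_bdd {N : ℕ} (P : Matrix (Fin N) (Fin N) ℝ) (q : Fin N → ℝ) (ε : ℝ) :
    BddBelow {t : ℝ | 0 ≤ t ∧ dmax P q t ≤ ε} := ⟨0, fun _ ht => ht.1⟩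

theorem FIN_nonneg {N : ℕ} (P : Matrix (Fin N) (Fin N) ℝ) (q : Fin N → ℝ) (ε : ℝ) :
    0 ≤ tmix P q ε := Real.sInf_nonneg fun _ ht => ht.1

theorem FIN_first (H : ∀ (h : ℕ), 2 ≤ h → ∀ t : ℝ, 0 ≤ t →
    dmax (M (2 * h) h) (st (2 * h)) t ≤ Real.exp (-t) * (1 + t + t ^ 2 / 2) + 3 / √(h : ℝ) ∧
      ∀ a, Real.exp (-t) - st (2 * h) a ≤ dmax (M (2 * h) h) (st (2 * h)) t) (h : ℕ)
    (hh : 10 ^ 6 ≤ h) : tmix (M (2 * h) h) (st (2 * h)) (1 / 4) ≤ 8 ∧
    3 ≤ tmix (M (2 * h) h) (st (2 * h)) (1 / 100) ∧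
    tmix (M (2 * h) h) (st (2 * h)) (99 / 100) ≤ 1 := by
  have h2 : 2 ≤ h := by omega
  have hs := FIN_sqrt hh
  refine ⟨?_, ?_, ?_⟩
  · refine csInf_le (FIN_bdd _ _ _) ⟨by norm_num, ?_⟩
    refine (H h h2 8 (by norm_num)).1.trans ?_
    have h3 : Real.exp (-8) ≤ (1 / 2) ^ 8 := by
      have := FIN_exp_neg (m := 8)
      exact_mod_cast this
    norm_num at h3 ⊢
    linarith
  · refine le_csInf ⟨20, by norm_num, ?_⟩ ?_
    · refine (H h h2 20 (by norm_num)).1.trans ?_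
      have h3 : Real.exp (-20) ≤ (1 / 2) ^ 20 := by
        have := FIN_exp_neg (m := 20)
        exact_mod_cast this
      norm_num at h3 ⊢
      linarith
    · intro t ht
      by_contra hlt
      rw [not_le] at hlt
      have h3 := (H h h2 t ht.1).2 0
      have h4 := FIN_st hh
      have h5 : Real.exp (-3) ≤ Real.exp (-t) := Real.exp_le_exp.2 (by linarith)
      have h6 : (1 : ℝ) / 25 ≤ Real.exp (-3) := by
        have e : Real.exp (-3) = (Real.exp 1 ^ 3)⁻¹ := by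
          rw [← Real.exp_nat_mul, ← Real.exp_neg]
          norm_num
        rw [e, one_div]
        refine inv_anti₀ (by positivity) ?_
        calc Real.exp 1 ^ 3 ≤ 2.72 ^ 3 :=
              pow_le_pow_left₀ (Real.exp_pos _).le (by linarith [Real.exp_one_lt_d9]) 3
          _ ≤ 25 := by norm_num
      have h7 := ht.2
      linarith
  · refine csInf_le (FIN_bdd _ _ _) ⟨by norm_num, ?_⟩
    refine (H h h2 1 (by norm_num)).1.trans ?_
    have h3 : Real.exp (-1) ≤ 1 / 2.7 := by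
      rw [Real.exp_neg, one_div]
      exact inv_anti₀ (by norm_num) (by linarith [Real.exp_one_gt_d9])
    norm_num at h3 ⊢
    linarith

/-- BL-FIN -/
theorem fin : S_FIN := by
  intro H
  have hF := FIN_first H
  have hdbl : Tendsto (fun h : ℕ => 2 * h) atTop atTop :=
    tendsto_id.const_mul_atTop' (by norm_num : 0 < 2)
  have hdiv : ∀ h : ℕ, 2 * h / 2 = h := fun h => by omega
  refine ⟨?_, ?_, ?_⟩
  · filter_upwards [eventually_ge_atTop (10 ^ 6)] with h hh
    exact hF h hh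
  · intro hT
    have h1 := hT.comp hdbl
    have h2 : ∀ᶠ h : ℕ in atTop, tmix (M (2 * h) h) (st (2 * h)) (1 / 100) /
        tmix (M (2 * h) h) (st (2 * h)) (99 / 100) ∈ Set.Ioo (1 / 2 : ℝ) 2 := by
      have h3 := h1.eventually (Ioo_mem_nhds (show (1 / 2 : ℝ) < 1 by norm_num)
        (show (1 : ℝ) < 2 by norm_num))
      filter_upwards [h3] with h hh
      simp only [Function.comp_apply, hdiv] at hh
      exact hh
    obtain ⟨h, hh1, hh2⟩ := (h2.and (eventually_ge_atTop (10 ^ 6))).exists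
    obtain ⟨-, h4, h5⟩ := hF h hh2
    have h6 := FIN_nonneg (M (2 * h) h) (st (2 * h)) (99 / 100)
    rcases h6.eq_or_lt with h7 | h7
    · rw [← h7, div_zero] at hh1
      have := hh1.1
      norm_num at this
    · have h8 := hh1.2
      rw [div_lt_iff₀ h7] at h8
      linarith
  · rintro ⟨c, hc, hcn⟩
    have h1 := hdbl.eventually hcn
    have h2 : Tendsto (fun h : ℕ => c * Real.log ((2 * h : ℕ) : ℝ)) atTop atTop :=
      ((Real.tendsto_log_atTop.comp tendsto_natCast_atTop_atTop).comp hdbl).const_mul_atTop hc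
    obtain ⟨h, hh1, hh2, hh3⟩ := (h1.and ((h2.eventually (eventually_gt_atTop 8)).and
      (eventually_ge_atTop (10 ^ 6)))).exists
    rw [hdiv] at hh1
    have h4 := (hF h hh3).1
    linarith

end Pool.Agent.R548.BL
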