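import Pool.Agent.R548.BL.Defs

set_option autoImplicit false

namespace Pool.Agent.R548.BL

namespace IDaux
open Finset

theorem absorb (p x : ℕ) : ((x : ℝ) + 1) * (p.choose (x + 1) : ℝ) = ((p : ℝ) - x) * (p.choose x : ℝ) := by
  rcases le_or_gt x p with h | h
  · have h1 := Nat.choose_succ_right_eq p x
    have h2 : ((p.choose (x + 1) : ℕ) : ℝ) * ((x : ℝ) + 1) = (p.choose x : ℝ) * ((p - x : ℕ) : ℝ) := by
      exact_mod_cast h1
    rw [Nat.cast_sub h] at h2
    linarith
  · rw [Nat.choose_eq_zero_of_lt h, Nat.choose_eq_zero_of_lt (h.trans (Nat.lt_succ_self x))]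
    simp

theorem P1 (p q j : ℕ) (F : ℕ → ℝ) :
    ∑ x ∈ range (j + 2), ((p + 1).choose x : ℝ) * (q.choose (j + 1 - x) : ℝ) * F x
      = ∑ x ∈ range (j + 2), (p.choose x : ℝ) * (q.choose (j + 1 - x) : ℝ) * F x
        + ∑ x ∈ range (j + 1), (p.choose x : ℝ) * (q.choose (j - x) : ℝ) * F (x + 1) := by
  rw [sum_range_succ', sum_range_succ' (fun x => (p.choose x : ℝ) * (q.choose (j + 1 - x) : ℝ) * F x)]
  have e : ∀ x, ((p + 1).choose (x + 1) : ℝ) * (q.choose (j + 1 - (x + 1)) : ℝ) * F (x + 1)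
      = (p.choose (x + 1) : ℝ) * (q.choose (j + 1 - (x + 1)) : ℝ) * F (x + 1)
        + (p.choose x : ℝ) * (q.choose (j - x) : ℝ) * F (x + 1) := by
    intro x
    rw [Nat.choose_succ_succ', Nat.add_sub_add_right]
    push_cast
    ring
  rw [sum_congr rfl fun x _ => e x, sum_add_distrib]
  simp only [Nat.choose_zero_right]
  ring

theorem P2 (p q j : ℕ) (F : ℕ → ℝ) :
    ∑ x ∈ range (j + 2), (p.choose x : ℝ) * ((q + 1).choose (j + 1 - x) : ℝ) * F x
      = ∑ x ∈ range (j + 2), (p.choose x : ℝ) * (q.choose (j + 1 - x) : ℝ) * F x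
        + ∑ x ∈ range (j + 1), (p.choose x : ℝ) * (q.choose (j - x) : ℝ) * F x := by
  rw [sum_range_succ, sum_range_succ (fun x => (p.choose x : ℝ) * (q.choose (j + 1 - x) : ℝ) * F x)]
  have e : ∀ x ∈ range (j + 1), (p.choose x : ℝ) * ((q + 1).choose (j + 1 - x) : ℝ) * F x
      = (p.choose x : ℝ) * (q.choose (j + 1 - x) : ℝ) * F x
        + (p.choose x : ℝ) * (q.choose (j - x) : ℝ) * F x := by
    intro x hx
    have hx' : x ≤ j := Nat.lt_succ_iff.1 (mem_range.1 hx)
    rw [Nat.succ_sub hx', Nat.succ_eq_add_one, Nat.choose_succ_succ']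
    push_cast
    ring
  rw [sum_congr rfl e, sum_add_distrib]
  simp only [Nat.sub_self, Nat.choose_zero_right]
  ring

theorem AB (p q j : ℕ) (F : ℕ → ℝ) :
    ((j : ℝ) + 1) * ∑ x ∈ range (j + 2), (p.choose x : ℝ) * (q.choose (j + 1 - x) : ℝ) * F x
      = ∑ x ∈ range (j + 1), (p.choose x : ℝ) * (q.choose (j - x) : ℝ) *
          (((p : ℝ) - x) * F (x + 1) + ((q : ℝ) - (j - x)) * F x) := by
  have e0 : ((j : ℝ) + 1) * ∑ x ∈ range (j + 2), (p.choose x : ℝ) * (q.choose (j + 1 - x) : ℝ) * F x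
      = ∑ x ∈ range (j + 2), (x : ℝ) * ((p.choose x : ℝ) * (q.choose (j + 1 - x) : ℝ) * F x)
        + ∑ x ∈ range (j + 2), ((j : ℝ) + 1 - x) * ((p.choose x : ℝ) * (q.choose (j + 1 - x) : ℝ) * F x) := by
    rw [← sum_add_distrib, mul_sum]
    refine sum_congr rfl fun x _ => ?_
    ring
  rw [e0, sum_range_succ', sum_range_succ
    (fun x => ((j : ℝ) + 1 - x) * ((p.choose x : ℝ) * (q.choose (j + 1 - x) : ℝ) * F x))]
  have e1 : ∀ x, ((x + 1 : ℕ) : ℝ) * ((p.choose (x + 1) : ℝ) * (q.choose (j + 1 - (x + 1)) : ℝ) * F (x + 1))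
      = (p.choose x : ℝ) * (q.choose (j - x) : ℝ) * (((p : ℝ) - x) * F (x + 1)) := by
    intro x
    rw [Nat.add_sub_add_right]
    have := absorb p x
    push_cast
    linear_combination ((q.choose (j - x) : ℝ) * F (x + 1)) * this
  have e2 : ∀ x ∈ range (j + 1), ((j : ℝ) + 1 - x) * ((p.choose x : ℝ) * (q.choose (j + 1 - x) : ℝ) * F x)
      = (p.choose x : ℝ) * (q.choose (j - x) : ℝ) * (((q : ℝ) - (j - x)) * F x) := by
    intro x hx
    have hx' : x ≤ j := Nat.lt_succ_iff.1 (mem_range.1 hx)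
    have := absorb q (j - x)
    rw [Nat.cast_sub hx'] at this
    rw [Nat.succ_sub hx', Nat.succ_eq_add_one]
    linear_combination ((p.choose x : ℝ) * F x) * this
  rw [sum_congr rfl fun x _ => e1 x, sum_congr rfl e2]
  have e3 : ∑ x ∈ range (j + 1), (p.choose x : ℝ) * (q.choose (j - x) : ℝ) *
          (((p : ℝ) - x) * F (x + 1) + ((q : ℝ) - (j - x)) * F x)
      = ∑ x ∈ range (j + 1), (p.choose x : ℝ) * (q.choose (j - x) : ℝ) * (((p : ℝ) - x) * F (x + 1))
        + ∑ x ∈ range (j + 1), (p.choose x : ℝ) * (q.choose (j - x) : ℝ) * (((q : ℝ) - (j - x)) * F x) := by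
    rw [← sum_add_distrib]
    refine sum_congr rfl fun x _ => ?_
    ring
  rw [e3]
  push_cast
  ring

end IDaux

open Finset in
theorem id : S_ID := by
  intro h p q f hh _
  obtain ⟨j, rfl⟩ : ∃ j, h = j + 1 := ⟨h - 1, by omega⟩
  simp only [Nat.add_sub_cancel]
  set B0 : (ℕ → ℝ) → ℝ := fun G =>
    ∑ y ∈ range (j + 2), (q.choose y : ℝ) * (p.choose (j + 1 - y) : ℝ) * G y with hB0
  set b0 : (ℕ → ℝ) → ℝ := fun G =>
    ∑ y ∈ range (j + 1), (q.choose y : ℝ) * (p.choose (j - y) : ℝ) * G y with hb0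
  have hS1 : ∑ x ∈ range (j + 2), ∑ y ∈ range (j + 2),
      (((p + 1).choose x : ℝ) * (q.choose (j + 1 - x) : ℝ)) *
        ((q.choose y : ℝ) * ((p + 1).choose (j + 1 - y) : ℝ)) * f (x + y)
      = ∑ x ∈ range (j + 2), (p.choose x : ℝ) * (q.choose (j + 1 - x) : ℝ) *
          (B0 (fun y => f (x + y)) + b0 (fun y => f (x + y)))
        + ∑ x ∈ range (j + 1), (p.choose x : ℝ) * (q.choose (j - x) : ℝ) *
          (B0 (fun y => f (x + 1 + y)) + b0 (fun y => f (x + 1 + y))) := by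
    rw [← IDaux.P1 p q j (fun x => B0 (fun y => f (x + y)) + b0 (fun y => f (x + y)))]
    refine sum_congr rfl fun x _ => ?_
    have := IDaux.P2 q p j (fun y => f (x + y))
    simp only [hB0, hb0]
    rw [← this, mul_sum]
    refine sum_congr rfl fun y _ => ?_
    ring
  have hS2 : ∑ x ∈ range (j + 2), ∑ y ∈ range (j + 2),
      ((p.choose x : ℝ) * ((q + 1).choose (j + 1 - x) : ℝ)) *
        (((q + 1).choose y : ℝ) * (p.choose (j + 1 - y) : ℝ)) * f (x + y)
      = ∑ x ∈ range (j + 2), (p.choose x : ℝ) * (q.choose (j + 1 - x) : ℝ) *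
          (B0 (fun y => f (x + y)) + b0 (fun y => f (x + (y + 1))))
        + ∑ x ∈ range (j + 1), (p.choose x : ℝ) * (q.choose (j - x) : ℝ) *
          (B0 (fun y => f (x + y)) + b0 (fun y => f (x + (y + 1)))) := by
    rw [← IDaux.P2 p q j (fun x => B0 (fun y => f (x + y)) + b0 (fun y => f (x + (y + 1))))]
    refine sum_congr rfl fun x _ => ?_
    have := IDaux.P1 q p j (fun y => f (x + y))
    simp only [hB0, hb0]
    rw [← this, mul_sum]
    refine sum_congr rfl fun y _ => ?_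
    ring
  have hsub : ∀ G G' : ℕ → ℝ, b0 G - b0 G' = b0 (fun y => G y - G' y) := by
    intro G G'
    simp only [hb0]
    rw [← sum_sub_distrib]
    refine sum_congr rfl fun y _ => ?_
    ring
  have hBsub : ∀ G G' : ℕ → ℝ, B0 G - B0 G' = B0 (fun y => G y - G' y) := by
    intro G G'
    simp only [hB0]
    rw [← sum_sub_distrib]
    refine sum_congr rfl fun y _ => ?_
    ring
  have hdiff : ∑ x ∈ range (j + 2), ∑ y ∈ range (j + 2),
      ((((p + 1).choose x : ℝ) * (q.choose (j + 1 - x) : ℝ)) *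
        ((q.choose y : ℝ) * ((p + 1).choose (j + 1 - y) : ℝ)) * f (x + y)
      - ((p.choose x : ℝ) * ((q + 1).choose (j + 1 - x) : ℝ)) *
        (((q + 1).choose y : ℝ) * (p.choose (j + 1 - y) : ℝ)) * f (x + y))
      = ∑ x ∈ range (j + 2), (p.choose x : ℝ) * (q.choose (j + 1 - x) : ℝ) *
          b0 (fun y => f (x + y) - f (x + (y + 1)))
        + ∑ x ∈ range (j + 1), (p.choose x : ℝ) * (q.choose (j - x) : ℝ) *
          (B0 (fun y => f (x + 1 + y) - f (x + y)) +
            b0 (fun y => f (x + 1 + y) - f (x + (y + 1)))) := by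
    simp only [sum_sub_distrib]
    rw [hS1, hS2]
    have e1 : ∀ x, b0 (fun y => f (x + y) - f (x + (y + 1)))
        = b0 (fun y => f (x + y)) - b0 (fun y => f (x + (y + 1))) := fun x => (hsub _ _).symm
    have e2 : ∀ x, b0 (fun y => f (x + 1 + y) - f (x + (y + 1)))
        = b0 (fun y => f (x + 1 + y)) - b0 (fun y => f (x + (y + 1))) := fun x => (hsub _ _).symm
    have e3 : ∀ x, B0 (fun y => f (x + 1 + y) - f (x + y))
        = B0 (fun y => f (x + 1 + y)) - B0 (fun y => f (x + y)) := fun x => (hBsub _ _).symm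
    simp only [e1, e2, e3]
    rw [add_sub_add_comm, ← sum_sub_distrib, ← sum_sub_distrib]
    congr 1
    · refine sum_congr rfl fun x _ => ?_
      ring
    · refine sum_congr rfl fun x _ => ?_
      ring
  have hzero : ∀ x, b0 (fun y => f (x + 1 + y) - f (x + (y + 1))) = 0 := by
    intro x
    simp only [hb0]
    refine sum_eq_zero fun y _ => ?_
    rw [show x + 1 + y = x + (y + 1) by ring]
    ring
  rw [show j + 1 + 1 = j + 2 from rfl, hdiff]
  simp only [hzero, add_zero]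
  push_cast
  rw [mul_add, IDaux.AB p q j (fun x => b0 (fun y => f (x + y) - f (x + (y + 1)))), mul_sum,
    ← sum_add_distrib]
  refine sum_congr rfl fun x _ => ?_
  have hAB := IDaux.AB q p j (fun y => f (x + 1 + y) - f (x + y))
  have e4 : ((j : ℝ) + 1) * ((p.choose x : ℝ) * (q.choose (j - x) : ℝ) *
      B0 (fun y => f (x + 1 + y) - f (x + y)))
      = (p.choose x : ℝ) * (q.choose (j - x) : ℝ) *
        ∑ y ∈ range (j + 1), (q.choose y : ℝ) * (p.choose (j - y) : ℝ) *
          (((q : ℝ) - y) * (f (x + 1 + (y + 1)) - f (x + (y + 1))) +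
            ((p : ℝ) - (j - y)) * (f (x + 1 + y) - f (x + y))) := by
    rw [← hAB]
    simp only [hB0]
    ring
  rw [e4]
  simp only [hb0]
  rw [mul_sum, mul_sum, mul_sum, ← sum_add_distrib, mul_sum, ← sum_add_distrib]
  refine sum_congr rfl fun y _ => ?_
  rw [show x + 1 + (y + 1) = x + y + 2 by ring, show x + 1 + y = x + y + 1 by ring,
    show x + (y + 1) = x + y + 1 by ring]
  ring

end Pool.Agent.R548.BL
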