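import Pool.Agent.R548.BL.Defs

open Filter Topology

namespace Pool.Agent.R548.BL

lemma key_cs {ι : Type*} (S : Finset ι) (w u v : ι → ℝ) (hw : ∀ z ∈ S, 0 ≤ w z) (U V : ℝ)
    (hU0 : 0 ≤ U) (hV0 : 0 ≤ V) (hU : ∑ z ∈ S, w z * u z ^ 2 ≤ U ^ 2)
    (hV : ∑ z ∈ S, w z * v z ^ 2 ≤ V ^ 2) : |∑ z ∈ S, w z * (u z * v z)| ≤ U * V := by
  have h1 := Finset.sum_mul_sq_le_sq_mul_sq S (fun z => √(w z) * u z) (fun z => √(w z) * v z)
  have e1 : ∑ z ∈ S, (√(w z) * u z) * (√(w z) * v z) = ∑ z ∈ S, w z * (u z * v z) := by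
    apply Finset.sum_congr rfl
    intro z hz
    have := Real.mul_self_sqrt (hw z hz)
    calc (√(w z) * u z) * (√(w z) * v z) = (√(w z) * √(w z)) * (u z * v z) := by ring
      _ = _ := by rw [this]
  have e2 : ∑ z ∈ S, (√(w z) * u z) ^ 2 = ∑ z ∈ S, w z * u z ^ 2 := by
    apply Finset.sum_congr rfl
    intro z hz
    rw [mul_pow, Real.sq_sqrt (hw z hz)]
  have e3 : ∑ z ∈ S, (√(w z) * v z) ^ 2 = ∑ z ∈ S, w z * v z ^ 2 := by
    apply Finset.sum_congr rfl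
    intro z hz
    rw [mul_pow, Real.sq_sqrt (hw z hz)]
  rw [e1, e2, e3] at h1
  have h2 : 0 ≤ ∑ z ∈ S, w z * v z ^ 2 :=
    Finset.sum_nonneg fun z hz => mul_nonneg (hw z hz) (sq_nonneg _)
  have h3 : (∑ z ∈ S, w z * (u z * v z)) ^ 2 ≤ (U * V) ^ 2 := by
    rw [mul_pow]
    exact h1.trans (mul_le_mul hU hV h2 (sq_nonneg _))
  exact abs_le_of_sq_le_sq h3 (mul_nonneg hU0 hV0)

lemma key_prod (S : Finset ℕ) (A B : ℕ → ℝ) (c μ ν v α s : ℝ) (hs : s ^ 2 = 1) (hc : 0 ≤ c)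
    (hA0 : ∑ x ∈ S, A x = c) (hA1 : ∑ x ∈ S, A x * ((x : ℝ) - μ) = 0)
    (hA2 : ∑ x ∈ S, A x * ((x : ℝ) - μ) ^ 2 ≤ v * c)
    (hB0 : ∑ x ∈ S, B x = c) (hB1 : ∑ x ∈ S, B x * ((x : ℝ) - ν) = 0)
    (hB2 : ∑ x ∈ S, B x * ((x : ℝ) - ν) ^ 2 ≤ v * c) :
    ∑ x ∈ S, ∑ y ∈ S, A x * B y * (α + ((x : ℝ) - μ) + s * ((y : ℝ) - ν)) ^ 2
      ≤ c ^ 2 * (α ^ 2 + 2 * v) := by
  have inner : ∀ β : ℝ, ∑ y ∈ S, B y * (β + s * ((y : ℝ) - ν)) ^ 2 =
      c * β ^ 2 + ∑ x ∈ S, B x * ((x : ℝ) - ν) ^ 2 := by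
    intro β
    have e : ∀ y ∈ S, B y * (β + s * ((y : ℝ) - ν)) ^ 2 =
        β ^ 2 * B y + 2 * β * s * (B y * ((y : ℝ) - ν)) + B y * ((y : ℝ) - ν) ^ 2 := by
      intro y _
      linear_combination (B y * ((y : ℝ) - ν) ^ 2) * hs
    rw [Finset.sum_congr rfl e, Finset.sum_add_distrib, Finset.sum_add_distrib, ← Finset.mul_sum,
      ← Finset.mul_sum, hB0, hB1]
    ring
  set VB := ∑ x ∈ S, B x * ((x : ℝ) - ν) ^ 2 with hVB
  have outer : ∑ x ∈ S, ∑ y ∈ S, A x * B y * (α + ((x : ℝ) - μ) + s * ((y : ℝ) - ν)) ^ 2 =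
      c * (c * α ^ 2 + ∑ x ∈ S, A x * ((x : ℝ) - μ) ^ 2) + c * VB := by
    have e : ∀ x ∈ S, ∑ y ∈ S, A x * B y * (α + ((x : ℝ) - μ) + s * ((y : ℝ) - ν)) ^ 2 =
        c * α ^ 2 * A x + 2 * c * α * (A x * ((x : ℝ) - μ)) + c * (A x * ((x : ℝ) - μ) ^ 2)
          + VB * A x := by
      intro x _
      have e2 : ∑ y ∈ S, A x * B y * (α + ((x : ℝ) - μ) + s * ((y : ℝ) - ν)) ^ 2 =
          A x * ∑ y ∈ S, B y * ((α + ((x : ℝ) - μ)) + s * ((y : ℝ) - ν)) ^ 2 := by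
        rw [Finset.mul_sum]
        apply Finset.sum_congr rfl
        intro y _
        ring
      rw [e2, inner]
      ring
    rw [Finset.sum_congr rfl e, Finset.sum_add_distrib, Finset.sum_add_distrib,
      Finset.sum_add_distrib, ← Finset.mul_sum, ← Finset.mul_sum, ← Finset.mul_sum,
      ← Finset.mul_sum, hA0, hA1]
    ring
  rw [outer]
  have h1 : c * (∑ x ∈ S, A x * ((x : ℝ) - μ) ^ 2) ≤ c * (v * c) :=
    mul_le_mul_of_nonneg_left hA2 hc
  have h2 : c * VB ≤ c * (v * c) := mul_le_mul_of_nonneg_left hB2 hc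
  nlinarith

/-- weights of `ID` -/
noncomputable def wA (h a x : ℕ) : ℝ := (a.choose x : ℝ) * ((2 * h - 1 - a).choose (h - 1 - x) : ℝ)
noncomputable def wB (h a y : ℕ) : ℝ := ((2 * h - 1 - a).choose y : ℝ) * (a.choose (h - 1 - y) : ℝ)

lemma wA_nonneg (h a x : ℕ) : 0 ≤ wA h a x := by unfold wA; positivity
lemma wB_nonneg (h a x : ℕ) : 0 ≤ wB h a x := by unfold wB; positivity

noncomputable def c1 (h : ℕ) : ℝ := ((2 * h - 1).choose (h - 1) : ℝ)

lemma c1_pos {h : ℕ} (hh : 2 ≤ h) : 0 < c1 h := by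
  unfold c1
  exact_mod_cast Nat.choose_pos (by omega)

lemma C_eq {h : ℕ} (hh : 2 ≤ h) : ((2 * h).choose h : ℝ) = 2 * c1 h := by
  unfold c1
  obtain ⟨k, rfl⟩ : ∃ k, h = k + 1 := ⟨h - 1, by omega⟩
  have h1 : (2 * (k + 1)).choose (k + 1) = (2 * k + 1).choose k + (2 * k + 1).choose (k + 1) := by
    rw [show 2 * (k + 1) = (2 * k + 1) + 1 by ring, Nat.choose_succ_succ]
  have h2 : (2 * k + 1).choose (k + 1) = (2 * k + 1).choose k := by
    rw [← Nat.choose_symm_half]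
  have e1 : 2 * (k + 1) - 1 = 2 * k + 1 := by omega
  have e2 : k + 1 - 1 = k := by omega
  rw [e1, e2, h1, h2]
  push_cast
  ring

lemma diff_T (hid : S_ID) {h a : ℕ} (hh : 2 ≤ h) (ha : a < 2 * h) (f : ℕ → ℝ) :
    T h f (a + 1) - T h f a = (∑ x ∈ Finset.range h, ∑ y ∈ Finset.range h,
      wA h a x * wB h a y * (((2 * h - 1 - 2 * a : ℝ) + x - y) *
        (f (x + y + 2) - 2 * f (x + y + 1) + f (x + y)))) / (4 * h * c1 h ^ 2) := by
  have h1 := hid h a (2 * h - 1 - a) f (by omega) (by omega)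
  have hc := c1_pos hh
  have hh0 : (0 : ℝ) < h := by exact_mod_cast (by omega : 0 < h)
  have e1 : 2 * h - (a + 1) = 2 * h - 1 - a := by omega
  have e2 : 2 * h - a = 2 * h - 1 - a + 1 := by omega
  have e3 : ((2 * h - 1 - a : ℕ) : ℝ) - (a : ℝ) = 2 * h - 1 - 2 * a := by
    rw [Nat.cast_sub (by omega), Nat.cast_sub (by omega)]
    push_cast
    ring
  unfold T
  rw [C_eq hh, e1, e2, ← sub_div, ← Finset.sum_sub_distrib]
  simp_rw [← Finset.sum_sub_distrib]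
  rw [div_eq_div_iff (by positivity) (by positivity)]
  have h2 : (∑ x ∈ Finset.range h, ∑ y ∈ Finset.range h,
      wA h a x * wB h a y * (((2 * h - 1 - 2 * a : ℝ) + x - y) *
        (f (x + y + 2) - 2 * f (x + y + 1) + f (x + y)))) =
      (∑ x ∈ Finset.range h, ∑ y ∈ Finset.range h,
    ((a.choose x : ℝ) * ((2 * h - 1 - a).choose (h - 1 - x) : ℝ)) *
      (((2 * h - 1 - a).choose y : ℝ) * (a.choose (h - 1 - y) : ℝ)) *
      ((((2 * h - 1 - a : ℕ) : ℝ) - a + x - y) * (f (x + y + 2) - 2 * f (x + y + 1) + f (x + y)))) := by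
    apply Finset.sum_congr rfl
    intro x _
    apply Finset.sum_congr rfl
    intro y _
    rw [e3]
    rfl
  rw [h2, ← h1]
  ring

/-- `r h a` -/
noncomputable def rr (h a : ℕ) : ℝ := √((2 * h - 1 - 2 * a : ℝ) ^ 2 + h)

lemma rr_sq (h a : ℕ) : rr h a ^ 2 = (2 * h - 1 - 2 * a : ℝ) ^ 2 + h := by
  unfold rr
  rw [Real.sq_sqrt (by positivity)]

lemma rr_nonneg (h a : ℕ) : 0 ≤ rr h a := Real.sqrt_nonneg _

/-- moments of the weights -/
lemma mom_w (hmom : S_MOM) {h a : ℕ} (hh : 2 ≤ h) (ha : a < 2 * h) (α s : ℝ) (hs : s ^ 2 = 1) :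
    ∑ x ∈ Finset.range h, ∑ y ∈ Finset.range h, wA h a x * wB h a y *
      (α + ((x : ℝ) - (h - 1) * a / (2 * h - 1)) +
        s * ((y : ℝ) - (h - 1) * (2 * h - 1 - a) / (2 * h - 1))) ^ 2
      ≤ c1 h ^ 2 * (α ^ 2 + 2 * ((h - 1) / 4)) := by
  have hA := hmom a (2 * h - 1 - a) (h - 1) (by omega) (by omega) (by omega)
  have hB := hmom (2 * h - 1 - a) a (h - 1) (by omega) (by omega) (by omega)
  have e0 : h - 1 + 1 = h := by omega
  have e1 : a + (2 * h - 1 - a) = 2 * h - 1 := by omega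
  have e2 : (2 * h - 1 - a) + a = 2 * h - 1 := by omega
  have e3 : ((2 * h - 1 - a : ℕ) : ℝ) = 2 * h - 1 - a := by
    rw [Nat.cast_sub (by omega), Nat.cast_sub (by omega)]
    push_cast
    ring
  have e4 : ((h - 1 : ℕ) : ℝ) = h - 1 := by
    rw [Nat.cast_sub (by omega)]
    push_cast
    ring
  rw [e0, e1, e3, e4] at hA
  rw [e0, e2, e3, e4] at hB
  rw [show (a : ℝ) + (2 * h - 1 - a) = 2 * h - 1 by ring] at hA
  rw [show (2 * h - 1 - a : ℝ) + a = 2 * h - 1 by ring] at hB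
  exact key_prod (Finset.range h) (wA h a) (wB h a) (c1 h) _ _ _ α s hs (c1_pos hh).le
    hA.1 hA.2.1 hA.2.2 hB.1 hB.2.1 hB.2.2

lemma mom_one (hmom : S_MOM) {h a : ℕ} (hh : 2 ≤ h) (ha : a < 2 * h) :
    ∑ x ∈ Finset.range h, ∑ y ∈ Finset.range h, wA h a x * wB h a y = c1 h ^ 2 := by
  have hA := (hmom a (2 * h - 1 - a) (h - 1) (by omega) (by omega) (by omega)).1
  have hB := (hmom (2 * h - 1 - a) a (h - 1) (by omega) (by omega) (by omega)).1
  have e0 : h - 1 + 1 = h := by omega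
  have e1 : a + (2 * h - 1 - a) = 2 * h - 1 := by omega
  have e2 : (2 * h - 1 - a) + a = 2 * h - 1 := by omega
  rw [e0, e1] at hA
  rw [e0, e2] at hB
  rw [← Finset.sum_mul_sum, pow_two]
  exact congrArg₂ (· * ·) hA hB

lemma mom_D (hmom : S_MOM) {h a : ℕ} (hh : 2 ≤ h) (ha : a < 2 * h) :
    ∑ z ∈ Finset.range h ×ˢ Finset.range h, wA h a z.1 * wB h a z.2 *
      ((2 * h - 1 - 2 * a : ℝ) + z.1 - z.2) ^ 2 ≤ (c1 h * rr h a) ^ 2 := by
  rw [Finset.sum_product, mul_pow, rr_sq]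
  have hh' : (2 : ℝ) ≤ h := by exact_mod_cast hh
  have hm : (0 : ℝ) < 2 * h - 1 := by linarith
  have h1 := mom_w hmom hh ha ((2 * h - 1 - 2 * a : ℝ) * h / (2 * h - 1)) (-1) (by norm_num)
  have h2 : ∀ x ∈ Finset.range h, ∀ y ∈ Finset.range h,
      wA h a x * wB h a y * ((2 * h - 1 - 2 * a : ℝ) + x - y) ^ 2 = wA h a x * wB h a y *
      ((2 * h - 1 - 2 * a : ℝ) * h / (2 * h - 1) + ((x : ℝ) - (h - 1) * a / (2 * h - 1)) +
        (-1) * ((y : ℝ) - (h - 1) * (2 * h - 1 - a) / (2 * h - 1))) ^ 2 := by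
    intro x _ y _
    congr 2
    field_simp
    ring
  rw [Finset.sum_congr rfl (fun x hx => Finset.sum_congr rfl (fun y hy => h2 x hx y hy))]
  refine h1.trans (mul_le_mul_of_nonneg_left ?_ (sq_nonneg _))
  have h3 : ((2 * h - 1 - 2 * a : ℝ) * h / (2 * h - 1)) ^ 2 ≤ (2 * h - 1 - 2 * a : ℝ) ^ 2 := by
    rw [mul_div_assoc, mul_pow]
    have h4 : ((h : ℝ) / (2 * h - 1)) ^ 2 ≤ 1 := by
      rw [sq_le_one_iff_abs_le_one, abs_of_pos (by positivity), div_le_one hm]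
      linarith
    nlinarith [sq_nonneg (2 * h - 1 - 2 * a : ℝ)]
  linarith

lemma step_of_sq (hid : S_ID) (hmom : S_MOM) {h a : ℕ} (hh : 2 ≤ h) (ha : a < 2 * h)
    (f : ℕ → ℝ) (V : ℝ) (hV : 0 ≤ V)
    (hf : ∑ z ∈ Finset.range h ×ˢ Finset.range h, wA h a z.1 * wB h a z.2 *
      (f (z.1 + z.2 + 2) - 2 * f (z.1 + z.2 + 1) + f (z.1 + z.2)) ^ 2 ≤ (c1 h * V) ^ 2) :
    |T h f (a + 1) - T h f a| ≤ rr h a * V / (4 * h) := by
  have hc := c1_pos hh
  have hh0 : (0 : ℝ) < h := by exact_mod_cast (by omega : 0 < h)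
  rw [diff_T hid hh ha, abs_div, abs_of_pos (show (0 : ℝ) < 4 * h * c1 h ^ 2 by positivity),
    div_le_div_iff₀ (by positivity) (by positivity)]
  have h1 := key_cs (Finset.range h ×ˢ Finset.range h) (fun z => wA h a z.1 * wB h a z.2)
    (fun z => (2 * h - 1 - 2 * a : ℝ) + z.1 - z.2)
    (fun z => f (z.1 + z.2 + 2) - 2 * f (z.1 + z.2 + 1) + f (z.1 + z.2))
    (fun z _ => mul_nonneg (wA_nonneg _ _ _) (wB_nonneg _ _ _)) (c1 h * rr h a) (c1 h * V)
    (mul_nonneg hc.le (rr_nonneg _ _)) (mul_nonneg hc.le hV) (mom_D hmom hh ha) hf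
  rw [Finset.sum_product] at h1
  calc _ ≤ (c1 h * rr h a) * (c1 h * V) * (4 * h) := mul_le_mul_of_nonneg_right h1 (by positivity)
    _ = _ := by ring

lemma step1 (hid : S_ID) (hmom : S_MOM) {h a : ℕ} (hh : 2 ≤ h) (ha : a < 2 * h)
    (f : ℕ → ℝ) (hf : ∀ i, 0 ≤ f i ∧ f i ≤ 1) :
    |T h f (a + 1) - T h f a| ≤ rr h a / (2 * h) := by
  have hc := c1_pos hh
  have hh0 : (0 : ℝ) < h := by exact_mod_cast (by omega : 0 < h)
  have h1 := step_of_sq hid hmom hh ha f 2 (by norm_num) (by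
    calc _ ≤ ∑ z ∈ Finset.range h ×ˢ Finset.range h, wA h a z.1 * wB h a z.2 * 4 := by
          apply Finset.sum_le_sum
          intro z _
          refine mul_le_mul_of_nonneg_left ?_ (mul_nonneg (wA_nonneg _ _ _) (wB_nonneg _ _ _))
          have h1 := hf (z.1 + z.2 + 2)
          have h2 := hf (z.1 + z.2 + 1)
          have h3 := hf (z.1 + z.2)
          have : |f (z.1 + z.2 + 2) - 2 * f (z.1 + z.2 + 1) + f (z.1 + z.2)| ≤ 2 := by
            rw [abs_le]; constructor <;> linarith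
          calc (f (z.1 + z.2 + 2) - 2 * f (z.1 + z.2 + 1) + f (z.1 + z.2)) ^ 2
              = |f (z.1 + z.2 + 2) - 2 * f (z.1 + z.2 + 1) + f (z.1 + z.2)| ^ 2 := by
                rw [sq_abs]
            _ ≤ 2 ^ 2 := by gcongr
            _ = 4 := by norm_num
      _ = (c1 h * 2) ^ 2 := by
          rw [← Finset.sum_mul, Finset.sum_product, mom_one hmom hh ha]
          ring
      _ ≤ _ := le_rfl)
  refine h1.trans (le_of_eq ?_)
  field_simp
  ring

lemma step2 (hid : S_ID) (hmom : S_MOM) {h a : ℕ} (hh : 2 ≤ h) (ha : a < 2 * h)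
    (f : ℕ → ℝ) (hf : ∀ i, 0 ≤ f i ∧ f i ≤ 1) :
    |T h (T h f) (a + 1) - T h (T h f) a| ≤ rr h a / (2 * h * √(h : ℝ)) := by
  have hc := c1_pos hh
  have hh0 : (0 : ℝ) < h := by exact_mod_cast (by omega : 0 < h)
  have hh' : (2 : ℝ) ≤ h := by exact_mod_cast hh
  have hm : (0 : ℝ) < 2 * h - 1 := by linarith
  have hsq : 0 < √(h : ℝ) := Real.sqrt_pos.mpr hh0
  have hsq2 : √(h : ℝ) ^ 2 = h := Real.sq_sqrt hh0.le
  have h1 := step_of_sq hid hmom hh ha (T h f) (2 / √(h : ℝ)) (by positivity) (by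
    have hg : ∀ z ∈ Finset.range h ×ˢ Finset.range h,
        wA h a z.1 * wB h a z.2 * (T h f (z.1 + z.2 + 2) - 2 * T h f (z.1 + z.2 + 1) +
          T h f (z.1 + z.2)) ^ 2 ≤
        wA h a z.1 * wB h a z.2 * (((2 * ((h : ℝ) - 1 - z.1 - z.2)) ^ 2 + 1 + h) / h ^ 2) := by
      intro z hz
      rw [Finset.mem_product, Finset.mem_range, Finset.mem_range] at hz
      refine mul_le_mul_of_nonneg_left ?_ (mul_nonneg (wA_nonneg _ _ _) (wB_nonneg _ _ _))
      have g1 := step1 hid hmom hh (show z.1 + z.2 < 2 * h by omega) f hf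
      have g2 := step1 hid hmom hh (show z.1 + z.2 + 1 < 2 * h by omega) f hf
      have g1' : (T h f (z.1 + z.2 + 1) - T h f (z.1 + z.2)) ^ 2 ≤
          (rr h (z.1 + z.2) / (2 * h)) ^ 2 := by
        rw [← sq_abs]; gcongr
      have g2' : (T h f (z.1 + z.2 + 1 + 1) - T h f (z.1 + z.2 + 1)) ^ 2 ≤
          (rr h (z.1 + z.2 + 1) / (2 * h)) ^ 2 := by
        rw [← sq_abs]; gcongr
      rw [div_pow, rr_sq] at g1' g2'
      push_cast at g1' g2'
      have e : T h f (z.1 + z.2 + 2) - 2 * T h f (z.1 + z.2 + 1) + T h f (z.1 + z.2) =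
        (T h f (z.1 + z.2 + 1 + 1) - T h f (z.1 + z.2 + 1)) -
          (T h f (z.1 + z.2 + 1) - T h f (z.1 + z.2)) := by
        rw [show z.1 + z.2 + 1 + 1 = z.1 + z.2 + 2 by ring]
        ring
      rw [e]
      set X := T h f (z.1 + z.2 + 1 + 1) - T h f (z.1 + z.2 + 1)
      set Y := T h f (z.1 + z.2 + 1) - T h f (z.1 + z.2)
      have e2 : ((2 * ((h : ℝ) - 1 - z.1 - z.2)) ^ 2 + 1 + h) / h ^ 2 =
          2 * (((2 * h - 1 - 2 * ((z.1 : ℝ) + z.2)) ^ 2 + h) / (2 * h) ^ 2 +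
            ((2 * h - 1 - 2 * ((z.1 : ℝ) + z.2 + 1)) ^ 2 + h) / (2 * h) ^ 2) := by
        field_simp
        ring
      rw [e2]
      nlinarith [sq_nonneg (X + Y)]
    refine (Finset.sum_le_sum hg).trans ?_
    have e3 : ∑ z ∈ Finset.range h ×ˢ Finset.range h,
        wA h a z.1 * wB h a z.2 * (((2 * ((h : ℝ) - 1 - z.1 - z.2)) ^ 2 + 1 + h) / h ^ 2) =
        (4 / h ^ 2) * (∑ x ∈ Finset.range h, ∑ y ∈ Finset.range h, wA h a x * wB h a y *
          (0 + ((x : ℝ) - (h - 1) * a / (2 * h - 1)) +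
            1 * ((y : ℝ) - (h - 1) * (2 * h - 1 - a) / (2 * h - 1))) ^ 2) +
        ((1 + h) / h ^ 2) * (∑ x ∈ Finset.range h, ∑ y ∈ Finset.range h,
          wA h a x * wB h a y) := by
      rw [Finset.sum_product, Finset.mul_sum, Finset.mul_sum, ← Finset.sum_add_distrib]
      apply Finset.sum_congr rfl
      intro x _
      rw [Finset.mul_sum, Finset.mul_sum, ← Finset.sum_add_distrib]
      apply Finset.sum_congr rfl
      intro y _
      have e5 : (0 + ((x : ℝ) - (h - 1) * a / (2 * h - 1)) +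
            1 * ((y : ℝ) - (h - 1) * (2 * h - 1 - a) / (2 * h - 1))) = -((h : ℝ) - 1 - x - y) := by
        have e6 : ((h : ℝ) - 1) * a / (2 * h - 1) + (h - 1) * (2 * h - 1 - a) / (2 * h - 1) =
            h - 1 := by
          rw [← add_div, div_eq_iff hm.ne']
          ring
        linear_combination (-1) * e6
      rw [e5]
      ring
    rw [e3, mom_one hmom hh ha]
    have h2 := mom_w hmom hh ha 0 1 (by norm_num)
    have h3 : (4 / (h : ℝ) ^ 2) * (∑ x ∈ Finset.range h, ∑ y ∈ Finset.range h, wA h a x * wB h a y *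
          (0 + ((x : ℝ) - (h - 1) * a / (2 * h - 1)) +
            1 * ((y : ℝ) - (h - 1) * (2 * h - 1 - a) / (2 * h - 1))) ^ 2) ≤
        (4 / (h : ℝ) ^ 2) * (c1 h ^ 2 * (0 ^ 2 + 2 * ((h - 1) / 4))) :=
      mul_le_mul_of_nonneg_left h2 (by positivity)
    refine (add_le_add h3 le_rfl).trans ?_
    rw [mul_pow, div_pow, hsq2]
    have e4 : (4 / (h : ℝ) ^ 2) * (c1 h ^ 2 * (0 ^ 2 + 2 * ((h - 1) / 4))) +
        (1 + h) / h ^ 2 * c1 h ^ 2 = c1 h ^ 2 * ((3 * h - 1) / h ^ 2) := by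
      field_simp
      ring
    rw [e4]
    refine mul_le_mul_of_nonneg_left ?_ (sq_nonneg _)
    rw [div_le_div_iff₀ (by positivity) hh0]
    nlinarith)
  refine h1.trans (le_of_eq ?_)
  field_simp
  ring

lemma rr_le {h c s : ℕ} (hs : (2 * h - 1 - 2 * c : ℝ) ^ 2 ≤ (2 * s : ℝ) ^ 2) :
    rr h c ≤ 2 * s + √(h : ℝ) := by
  have hh0 : (0 : ℝ) ≤ h := by positivity
  have hsq2 : √(h : ℝ) ^ 2 = h := Real.sq_sqrt hh0
  unfold rr
  rw [Real.sqrt_le_left (by positivity)]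
  have : 0 ≤ (s : ℝ) * √(h : ℝ) := by positivity
  nlinarith

lemma step3_aux {s h : ℝ} (hh : 0 < h) : s * (2 * s + √h) ≤ 3 * s ^ 2 + h := by
  have hsq2 : √h ^ 2 = h := Real.sq_sqrt hh.le
  nlinarith [sq_nonneg (s - √h), sq_nonneg (√h)]

lemma step3 (hid : S_ID) (hmom : S_MOM) {h b : ℕ} (hh : 2 ≤ h) (hb : b ≤ 2 * h)
    (f : ℕ → ℝ) (hf : ∀ i, 0 ≤ f i ∧ f i ≤ 1) :
    |T h (T h f) b - T h (T h f) h| ≤ (3 * ((b : ℝ) - h) ^ 2 + h) / (2 * h * √(h : ℝ)) := by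
  have hh0 : (0 : ℝ) < h := by exact_mod_cast (by omega : 0 < h)
  have hsq : 0 < √(h : ℝ) := Real.sqrt_pos.mpr hh0
  set g := T h (T h f) with hg
  rcases le_total h b with hle | hle
  · obtain ⟨s, rfl⟩ := Nat.exists_eq_add_of_le hle
    have h1 := dist_le_Ico_sum_of_dist_le (f := g) hle
      (d := fun _ => (2 * (s : ℝ) + √(h : ℝ)) / (2 * h * √(h : ℝ))) (by
        intro k hk1 hk2
        rw [dist_comm, Real.dist_eq]
        refine (step2 hid hmom hh (show k < 2 * h by omega) f hf).trans ?_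
        refine div_le_div_of_nonneg_right (rr_le ?_) (by positivity)
        have a1 : (h : ℝ) ≤ k := by exact_mod_cast hk1
        have a2 : (k : ℝ) + 1 ≤ h + s := by exact_mod_cast hk2
        apply sq_le_sq'
        · nlinarith
        · nlinarith)
    rw [Finset.sum_const, Nat.card_Ico, nsmul_eq_mul, dist_comm, Real.dist_eq] at h1
    have e : h + s - h = s := by omega
    rw [e] at h1
    refine h1.trans ?_
    rw [← mul_div_assoc]
    refine div_le_div_of_nonneg_right ?_ (by positivity)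
    push_cast
    have := step3_aux (s := s) hh0
    rw [show (h : ℝ) + s - h = s by ring]
    exact this
  · obtain ⟨s, hs⟩ := Nat.exists_eq_add_of_le hle
    have h1 := dist_le_Ico_sum_of_dist_le (f := g) hle
      (d := fun _ => (2 * (s : ℝ) + √(h : ℝ)) / (2 * h * √(h : ℝ))) (by
        intro k hk1 hk2
        rw [dist_comm, Real.dist_eq]
        refine (step2 hid hmom hh (show k < 2 * h by omega) f hf).trans ?_
        refine div_le_div_of_nonneg_right (rr_le ?_) (by positivity)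
        have a1 : (b : ℝ) ≤ k := by exact_mod_cast hk1
        have a2 : (k : ℝ) + 1 ≤ h := by exact_mod_cast hk2
        have a3 : (h : ℝ) = b + s := by exact_mod_cast hs
        apply sq_le_sq'
        · nlinarith
        · nlinarith)
    rw [Finset.sum_const, Nat.card_Ico, nsmul_eq_mul, Real.dist_eq] at h1
    have e : h - b = s := by omega
    rw [e] at h1
    refine h1.trans ?_
    rw [← mul_div_assoc]
    refine div_le_div_of_nonneg_right ?_ (by positivity)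
    have a3 : (h : ℝ) = b + s := by exact_mod_cast hs
    have := step3_aux (s := s) hh0
    rw [show (b : ℝ) - h = -s by rw [a3]; ring, neg_sq]
    exact this

lemma T_two_h_one (hmom : S_MOM) {h a : ℕ} (hh : 2 ≤ h) (ha : a ≤ 2 * h) (c : ℝ) :
    T h (fun _ => c) a = c := by
  have hA := (hmom a (2 * h - a) h (by omega) (by omega) (by omega)).1
  have hB := (hmom (2 * h - a) a h (by omega) (by omega) (by omega)).1
  rw [show a + (2 * h - a) = 2 * h by omega] at hA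
  rw [show 2 * h - a + a = 2 * h by omega] at hB
  have hC : (0 : ℝ) < ((2 * h).choose h : ℝ) := by exact_mod_cast Nat.choose_pos (by omega)
  unfold T
  rw [div_eq_iff (by positivity)]
  simp_rw [← Finset.sum_mul]
  rw [← Finset.sum_mul_sum, hA, hB]
  ring

lemma T_var (hmom : S_MOM) {h a : ℕ} (hh : 2 ≤ h) (ha : a ≤ 2 * h) :
    T h (fun i => (((i : ℝ) - h) ^ 2)) a ≤ h / 2 := by
  have hA := hmom a (2 * h - a) h (by omega) (by omega) (by omega)
  have hB := hmom (2 * h - a) a h (by omega) (by omega) (by omega)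
  have hh0 : (0 : ℝ) < h := by exact_mod_cast (by omega : 0 < h)
  have e3 : ((2 * h - a : ℕ) : ℝ) = 2 * h - a := by
    rw [Nat.cast_sub (by omega)]
    push_cast
    ring
  rw [show a + (2 * h - a) = 2 * h by omega, e3, show (a : ℝ) + (2 * h - a) = 2 * h by ring] at hA
  rw [show 2 * h - a + a = 2 * h by omega, e3, show (2 * h - a : ℝ) + a = 2 * h by ring] at hB
  have hC : (0 : ℝ) < ((2 * h).choose h : ℝ) := by exact_mod_cast Nat.choose_pos (by omega)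
  have h1 := key_prod (Finset.range (h + 1))
    (fun x => (a.choose x : ℝ) * ((2 * h - a).choose (h - x) : ℝ))
    (fun y => ((2 * h - a).choose y : ℝ) * (a.choose (h - y) : ℝ)) ((2 * h).choose h : ℝ) _ _ _
    0 1 (by norm_num) hC.le hA.1 hA.2.1 hA.2.2 hB.1 hB.2.1 hB.2.2
  unfold T
  rw [div_le_iff₀ (by positivity)]
  have e4 : (h : ℝ) / 2 * ((2 * h).choose h : ℝ) ^ 2 =
      ((2 * h).choose h : ℝ) ^ 2 * (0 ^ 2 + 2 * (h / 4)) := by ring
  rw [e4]
  refine le_trans (le_of_eq ?_) h1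
  apply Finset.sum_congr rfl
  intro x _
  apply Finset.sum_congr rfl
  intro y _
  have e6 : (h : ℝ) * a / (2 * h) + h * (2 * h - a) / (2 * h) = h := by
    rw [← add_div, div_eq_iff (by positivity)]
    ring
  have e7 : 0 + ((x : ℝ) - h * a / (2 * h)) + 1 * ((y : ℝ) - h * (2 * h - a) / (2 * h)) =
      x + y - h := by
    linear_combination (-1) * e6
  rw [e7]
  push_cast
  rfl

/-- `T` is a positive operator -/
lemma T_abs_le {h a : ℕ} (f g : ℕ → ℝ) (hfg : ∀ i, i ≤ 2 * h → |f i| ≤ g i) :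
    |T h f a| ≤ T h g a := by
  unfold T
  rw [abs_div, abs_of_nonneg (show (0 : ℝ) ≤ ((2 * h).choose h : ℝ) ^ 2 by positivity)]
  refine div_le_div_of_nonneg_right ?_ (by positivity)
  refine (Finset.abs_sum_le_sum_abs _ _).trans (Finset.sum_le_sum fun x hx => ?_)
  refine (Finset.abs_sum_le_sum_abs _ _).trans (Finset.sum_le_sum fun y hy => ?_)
  rw [Finset.mem_range] at hx hy
  rw [abs_mul, abs_of_nonneg (by positivity)]
  exact mul_le_mul_of_nonneg_left (hfg _ (by omega)) (by positivity)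

lemma T_sub {h a : ℕ} (f g : ℕ → ℝ) : T h (fun i => f i - g i) a = T h f a - T h g a := by
  unfold T
  rw [← sub_div, ← Finset.sum_sub_distrib]
  simp_rw [← Finset.sum_sub_distrib, mul_sub]

lemma T_lin {h a : ℕ} (α β : ℝ) (f g : ℕ → ℝ) :
    T h (fun i => α * f i + β * g i) a = α * T h f a + β * T h g a := by
  unfold T
  rw [← mul_div_assoc, ← mul_div_assoc, ← add_div, Finset.mul_sum, Finset.mul_sum,
    ← Finset.sum_add_distrib]
  congr 1
  apply Finset.sum_congr rfl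
  intro x _
  rw [Finset.mul_sum, Finset.mul_sum, ← Finset.sum_add_distrib]
  apply Finset.sum_congr rfl
  intro y _
  ring

lemma step4 (hid : S_ID) (hmom : S_MOM) {h a : ℕ} (hh : 2 ≤ h) (ha : a ≤ 2 * h)
    (f : ℕ → ℝ) (hf : ∀ i, 0 ≤ f i ∧ f i ≤ 1) :
    |T h (T h (T h f)) a - T h (T h f) h| ≤ (5 / 4) / √(h : ℝ) := by
  have hh0 : (0 : ℝ) < h := by exact_mod_cast (by omega : 0 < h)
  have hsq : 0 < √(h : ℝ) := Real.sqrt_pos.mpr hh0
  set g := T h (T h f) with hg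
  have h1 : T h g a - g h = T h (fun i => g i - g h) a := by
    rw [T_sub g (fun _ => g h), T_two_h_one hmom hh ha]
  rw [h1]
  refine (T_abs_le (fun i => g i - g h) (fun i => (3 / (2 * h * √(h : ℝ))) * ((i : ℝ) - h) ^ 2 +
    (1 / (2 * √(h : ℝ))) * 1) ?_).trans ?_
  · intro i hi
    refine (step3 hid hmom hh hi f hf).trans (le_of_eq ?_)
    field_simp
  · rw [T_lin (3 / (2 * h * √(h : ℝ))) (1 / (2 * √(h : ℝ))) (fun i => (((i : ℝ) - h) ^ 2))
      (fun _ => 1), T_two_h_one hmom hh ha]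
    have h2 := T_var hmom hh ha
    have h3 : 3 / (2 * h * √(h : ℝ)) * T h (fun i => (((i : ℝ) - h) ^ 2)) a ≤
        3 / (2 * h * √(h : ℝ)) * (h / 2) := mul_le_mul_of_nonneg_left h2 (by positivity)
    refine (add_le_add h3 le_rfl).trans (le_of_eq ?_)
    field_simp
    ring

theorem key (hid : S_ID) (hmom : S_MOM) : S_KEY := by
  intro h hh f hf a b ha hb
  have h1 := step4 hid hmom hh ha f hf
  have h2 := step4 hid hmom hh hb f hf
  have hh0 : (0 : ℝ) < h := by exact_mod_cast (by omega : 0 < h)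
  have hsq : 0 < √(h : ℝ) := Real.sqrt_pos.mpr hh0
  have h3 : 3 / √(h : ℝ) = 5 / 4 / √(h : ℝ) + 5 / 4 / √(h : ℝ) + (1 / 2) / √(h : ℝ) := by
    field_simp
    norm_num
  have h4 : 0 ≤ (1 / 2) / √(h : ℝ) := by positivity
  rw [h3]
  rw [abs_le] at h1 h2 ⊢
  constructor <;> linarith [h1.1, h1.2, h2.1, h2.2]

end Pool.Agent.R548.BL
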