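import Pool.Agent.R548.BL.Defs

open Filter Topology Matrix

namespace Pool.Agent.R548.BL

variable {N : ℕ} {P : Matrix (Fin N) (Fin N) ℝ}

lemma pow_nonneg' (hP : ∀ a b, 0 ≤ P a b) (j : ℕ) : ∀ a b, 0 ≤ (P ^ j) a b := by
  induction j with
  | zero =>
    intro a b
    rw [pow_zero, Matrix.one_apply]
    split_ifs <;> norm_num
  | succ j ih =>
    intro a b
    rw [pow_succ, Matrix.mul_apply]
    exact Finset.sum_nonneg fun c _ => mul_nonneg (ih a c) (hP c b)

lemma pow_row (hr : ∀ a, ∑ b, P a b = 1) (j : ℕ) : ∀ a, ∑ b, (P ^ j) a b = 1 := by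
  induction j with
  | zero =>
    intro a
    simp [Matrix.one_apply]
  | succ j ih =>
    intro a
    simp_rw [pow_succ, Matrix.mul_apply]
    rw [Finset.sum_comm]
    simp_rw [← Finset.mul_sum, hr, mul_one]
    exact ih a

lemma pow_stat {q : Fin N → ℝ} (hq : ∀ b, ∑ a, q a * P a b = q b) (j : ℕ) :
    ∀ b, ∑ a, q a * (P ^ j) a b = q b := by
  induction j with
  | zero =>
    intro b
    simp [Matrix.one_apply]
  | succ j ih =>
    intro b
    simp_rw [pow_succ, Matrix.mul_apply, Finset.mul_sum]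
    rw [Finset.sum_comm]
    simp_rw [← mul_assoc, ← Finset.sum_mul, ih]
    exact hq b

lemma avg_mem {p f : Fin N → ℝ} (hp : ∀ b, 0 ≤ p b) (h1 : ∑ b, p b = 1)
    (hf : ∀ i, 0 ≤ f i ∧ f i ≤ 1) : 0 ≤ ∑ b, p b * f b ∧ ∑ b, p b * f b ≤ 1 := by
  refine ⟨Finset.sum_nonneg fun b _ => mul_nonneg (hp b) (hf b).1, ?_⟩
  calc ∑ b, p b * f b ≤ ∑ b, p b := Finset.sum_le_sum fun b _ =>
        mul_le_of_le_one_right (hp b) (hf b).2
    _ = 1 := h1

lemma hasSum_w (t : ℝ) : HasSum (fun j : ℕ => Real.exp (-t) * t ^ j / (j.factorial : ℝ)) 1 := by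
  have h := (NormedSpace.expSeries_div_hasSum_exp (𝔸 := ℝ) t).mul_left (Real.exp (-t))
  rw [← Real.exp_eq_exp_ℝ, ← Real.exp_add, neg_add_cancel, Real.exp_zero] at h
  refine h.congr_fun ?_ |> fun h => h
  intro j
  ring

lemma D_bound {q : Fin N → ℝ} {δ : ℝ} (hP : ∀ a b, 0 ≤ P a b) (hr : ∀ a, ∑ b, P a b = 1)
    (hq0 : ∀ b, 0 ≤ q b) (hq1 : ∑ b, q b = 1) (hq : ∀ b, ∑ a, q a * P a b = q b)
    (hd : ∀ f : Fin N → ℝ, (∀ i, 0 ≤ f i ∧ f i ≤ 1) → ∀ a b,
      |∑ c, (P ^ 3) a c * f c - ∑ c, (P ^ 3) b c * f c| ≤ δ)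
    (f : Fin N → ℝ) (hf : ∀ i, 0 ≤ f i ∧ f i ≤ 1) (a : Fin N) (j : ℕ) :
    (∑ b, (P ^ (j + 3)) a b * f b) - ∑ b, q b * f b ≤ δ := by
  set g : Fin N → ℝ := fun c => ∑ b, (P ^ j) c b * f b with hg
  have hg1 : ∀ i, 0 ≤ g i ∧ g i ≤ 1 := fun i =>
    avg_mem (pow_nonneg' hP j i) (pow_row hr j i) hf
  have e1 : ∀ a, ∑ b, (P ^ (j + 3)) a b * f b = ∑ c, (P ^ 3) a c * g c := by
    intro a
    simp_rw [hg, add_comm j 3, pow_add, Matrix.mul_apply, Finset.mul_sum, Finset.sum_mul]
    rw [Finset.sum_comm]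
    refine Finset.sum_congr rfl fun c _ => Finset.sum_congr rfl fun b _ => by ring
  have e2 : ∑ b, q b * f b = ∑ c, q c * ∑ b, (P ^ (j + 3)) c b * f b := by
    have h := pow_stat hq (j + 3)
    calc ∑ b, q b * f b = ∑ b, (∑ c, q c * (P ^ (j + 3)) c b) * f b := by
          refine Finset.sum_congr rfl fun b _ => by rw [h b]
      _ = _ := by
          simp_rw [Finset.sum_mul, Finset.mul_sum]
          rw [Finset.sum_comm]
          refine Finset.sum_congr rfl fun c _ => Finset.sum_congr rfl fun b _ => by ring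
  have e3 : (∑ b, (P ^ (j + 3)) a b * f b) - ∑ b, q b * f b
      = ∑ c, q c * ((∑ b, (P ^ 3) a b * g b) - ∑ b, (P ^ 3) c b * g b) := by
    rw [e2]
    simp_rw [mul_sub, Finset.sum_sub_distrib, ← Finset.sum_mul, hq1, one_mul, e1]
  rw [e3]
  calc ∑ c, q c * ((∑ b, (P ^ 3) a b * g b) - ∑ b, (P ^ 3) c b * g b) ≤ ∑ c, q c * δ :=
        Finset.sum_le_sum fun c _ => mul_le_mul_of_nonneg_left
          ((le_abs_self _).trans (hd g hg1 a c)) (hq0 c)
    _ = δ := by rw [← Finset.sum_mul, hq1, one_mul]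

theorem law_proof : S_LAW := by
  intro N P q δ hN hδ hP hr hq0 hq1 hq hd t ht
  have : Nonempty (Fin N) := ⟨⟨0, hN⟩⟩
  set w : ℕ → ℝ := fun j => Real.exp (-t) * t ^ j / (j.factorial : ℝ) with hw
  have hw0 : ∀ j, 0 ≤ w j := fun j => by positivity
  have hwS : HasSum w 1 := hasSum_w t
  have hle1 : ∀ j a b, (P ^ j) a b ≤ 1 := fun j a b => by
    rw [← pow_row hr j a]
    exact Finset.single_le_sum (f := fun b => (P ^ j) a b) (fun c _ => pow_nonneg' hP j a c)
      (Finset.mem_univ b)
  have hlaw : ∀ a b, HasSum (fun j => w j * (P ^ j) a b) (law P t a b) := by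
    intro a b
    have hs : Summable (fun j => w j * (P ^ j) a b) :=
      Summable.of_nonneg_of_le (fun j => mul_nonneg (hw0 j) (pow_nonneg' hP j a b))
        (fun j => mul_le_of_le_one_right (hw0 j) (hle1 j a b)) hwS.summable
    exact hs.hasSum
  have hf_sum : ∀ (f : Fin N → ℝ) (a : Fin N),
      HasSum (fun j => w j * ((∑ b, (P ^ j) a b * f b) - ∑ b, q b * f b))
        (∑ b, (law P t a b - q b) * f b) := by
    intro f a
    have h1 : HasSum (fun j => ∑ b, (w j * (P ^ j) a b) * f b) (∑ b, law P t a b * f b) :=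
      hasSum_sum fun b _ => (hlaw a b).mul_right (f b)
    have h2 : HasSum (fun j => w j * ∑ b, q b * f b) (1 * ∑ b, q b * f b) := hwS.mul_right _
    have h3 := h1.sub h2
    have e1 : (∑ b, law P t a b * f b) - 1 * ∑ b, q b * f b
        = ∑ b, (law P t a b - q b) * f b := by
      simp_rw [one_mul, sub_mul, Finset.sum_sub_distrib]
    have e2 : (fun j => (∑ b, (w j * (P ^ j) a b) * f b) - w j * ∑ b, q b * f b)
        = fun j => w j * ((∑ b, (P ^ j) a b * f b) - ∑ b, q b * f b) := by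
      funext j
      rw [mul_sub]
      congr 1
      rw [Finset.mul_sum]
      exact Finset.sum_congr rfl fun b _ => by ring
    rw [e1, e2] at h3
    exact h3
  -- the upper bound for test functions
  have hup : ∀ (f : Fin N → ℝ) (a : Fin N), (∀ i, 0 ≤ f i ∧ f i ≤ 1) →
      ∑ b, (law P t a b - q b) * f b ≤ Real.exp (-t) * (1 + t + t ^ 2 / 2) + δ := by
    intro f a hf
    have h1 : HasSum (fun j => (if j < 3 then w j else 0) + w j * δ)
        (Real.exp (-t) * (1 + t + t ^ 2 / 2) + 1 * δ) := by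
      refine HasSum.add ?_ (hwS.mul_right δ)
      have h : HasSum (fun j => if j < 3 then w j else 0)
          (∑ j ∈ Finset.range 3, (if j < 3 then w j else 0)) :=
        hasSum_sum_of_ne_finset_zero (fun j hj => by
          rw [if_neg]
          rwa [Finset.mem_range] at hj)
      have e : ∑ j ∈ Finset.range 3, (if j < 3 then w j else 0)
          = Real.exp (-t) * (1 + t + t ^ 2 / 2) := by
        simp only [Finset.sum_range_succ, Finset.sum_range_zero, hw]
        norm_num [Nat.factorial]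
        ring
      rw [e] at h
      exact h
    rw [one_mul] at h1
    refine hasSum_le ?_ (hf_sum f a) h1
    intro j
    by_cases hj : j < 3
    · simp only [hj, if_true]
      have h2 := (avg_mem (pow_nonneg' hP j a) (pow_row hr j a) hf).2
      have h3 := (avg_mem hq0 hq1 hf).1
      have h4 : w j * ((∑ b, (P ^ j) a b * f b) - ∑ b, q b * f b) ≤ w j * 1 :=
        mul_le_mul_of_nonneg_left (by linarith) (hw0 j)
      have h5 := mul_nonneg (hw0 j) hδ
      linarith
    · simp only [hj, if_false, zero_add]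
      obtain ⟨i, rfl⟩ : ∃ i, j = i + 3 := ⟨j - 3, by omega⟩
      exact mul_le_mul_of_nonneg_left (D_bound hP hr hq0 hq1 hq hd f hf a i) (hw0 _)
  have hzero : ∀ a, ∑ b, (law P t a b - q b) = 0 := by
    intro a
    have h := hf_sum (fun _ => 1) a
    simp only [mul_one] at h
    have e : (fun j => w j * ((∑ b, (P ^ j) a b) - ∑ b, q b)) = fun _ => 0 := by
      funext j
      rw [pow_row hr j a, hq1, sub_self, mul_zero]
    rw [e] at h
    exact h.unique hasSum_zero
  have htv : ∀ a, (1 / 2) * ∑ b, |law P t a b - q b|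
      = ∑ b, (law P t a b - q b) * (if 0 ≤ law P t a b - q b then 1 else 0) := by
    intro a
    have h : ∑ b, |law P t a b - q b| = ∑ b, (2 * ((law P t a b - q b) *
        (if 0 ≤ law P t a b - q b then 1 else 0)) - (law P t a b - q b)) := by
      refine Finset.sum_congr rfl fun b _ => ?_
      split_ifs with hb
      · rw [abs_of_nonneg hb]; ring
      · rw [abs_of_neg (not_le.1 hb)]; ring
    rw [h, Finset.sum_sub_distrib, hzero, ← Finset.mul_sum]
    ring
  constructor
  · unfold dmax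
    refine ciSup_le fun a => ?_
    rw [htv]
    refine hup _ a fun i => ?_
    split_ifs <;> norm_num
  · intro a
    have hb : BddAbove (Set.range fun a : Fin N => (1 / 2) * ∑ b, |law P t a b - q b|) :=
      (Set.finite_range _).bddAbove
    refine le_trans ?_ (le_ciSup hb a)
    change _ ≤ (1 / 2) * ∑ b, |law P t a b - q b|
    rw [htv]
    have h1 : Real.exp (-t) ≤ law P t a a := by
      have h := le_hasSum (hlaw a a) 0 (fun j _ => mul_nonneg (hw0 j) (pow_nonneg' hP j a a))
      simpa [hw] using h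
    have h2 : ∀ b, 0 ≤ (law P t a b - q b) * (if 0 ≤ law P t a b - q b then 1 else 0) := by
      intro b
      split_ifs with hb
      · simpa using hb
      · simp
    have h3 : (law P t a a - q a) * (if 0 ≤ law P t a a - q a then 1 else 0)
        ≤ ∑ b, (law P t a b - q b) * (if 0 ≤ law P t a b - q b then 1 else 0) :=
      Finset.single_le_sum (f := fun b => (law P t a b - q b) *
        (if 0 ≤ law P t a b - q b then 1 else 0)) (fun b _ => h2 b) (Finset.mem_univ a)
    have h4 : law P t a a - q a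
        ≤ (law P t a a - q a) * (if 0 ≤ law P t a a - q a then 1 else 0) := by
      split_ifs with hb
      · simp
      · simp; linarith [not_le.1 hb]
    linarith

end Pool.Agent.R548.BL
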