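import Pool.Agent.R548.BL.Defs

open Filter Topology

namespace Pool.Agent.R548.BL

theorem mat_sw (m i j : ℕ) : m.choose i * (m - i).choose j = m.choose j * (m - j).choose i := by
  by_cases h : i + j ≤ m
  · have h1 : m.choose (i + j) * (i + j).choose i = m.choose i * (m - i).choose j := by
      have := Nat.choose_mul (n := m) (k := i + j) (s := i) (by omega)
      rwa [Nat.add_sub_cancel_left] at this
    have h2 : m.choose (i + j) * (i + j).choose j = m.choose j * (m - j).choose i := by
      have := Nat.choose_mul (n := m) (k := i + j) (s := j) (by omega)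
      rwa [Nat.add_sub_cancel] at this
    rw [← h1, ← h2, Nat.choose_symm_add]
  · by_cases hi : m < i
    · rw [Nat.choose_eq_zero_of_lt hi, Nat.choose_eq_zero_of_lt (show m - j < i by omega)]; simp
    · by_cases hj : m < j
      · rw [Nat.choose_eq_zero_of_lt hj, Nat.choose_eq_zero_of_lt (show m - i < j by omega)]; simp
      · rw [Nat.choose_eq_zero_of_lt (show m - i < j by omega),
          Nat.choose_eq_zero_of_lt (show m - j < i by omega)]; simp

theorem mat_W (n a h x : ℕ) (ha : a ≤ n) (hh : h ≤ n) (hxa : x ≤ a) (hxh : x ≤ h) :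
    n.choose a * a.choose x * (n - a).choose (h - x) =
      n.choose h * h.choose x * (n - h).choose (a - x) := by
  have h1 := Nat.choose_mul (n := n) (k := a) (s := x) hxa
  have h2 := Nat.choose_mul (n := n) (k := h) (s := x) hxh
  have e1 : n - a = (n - x) - (a - x) := by omega
  have e2 : n - h = (n - x) - (h - x) := by omega
  rw [h1, h2, e1, e2, mul_assoc, mul_assoc, mat_sw (n - x) (a - x) (h - x)]

def matF (h a b x : ℕ) : ℕ :=
  if x ≤ b ∧ b ≤ x + h then
    (a.choose x * (2 * h - a).choose (h - x)) * ((2 * h - a).choose (b - x) * a.choose (h - (b - x)))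
  else 0

def matG (h a b x : ℕ) : ℕ :=
  if x ≤ a ∧ x ≤ b ∧ h + x ≤ a + b then
    h.choose x * (h.choose (a - x) * h.choose (b - x)) * h.choose (a + b - x - h)
  else 0

theorem matG_symm (h a b x : ℕ) : matG h a b x = matG h b a x := by
  unfold matG
  rw [add_comm a b, mul_comm (h.choose (a - x))]
  congr 1
  apply propext
  tauto

theorem matFG (h a b x : ℕ) (ha : a ≤ 2 * h) (hxh : x ≤ h) :
    (2 * h).choose a ^ 2 * matF h a b x = (2 * h).choose h ^ 2 * matG h a b x := by
  unfold matF matG
  by_cases c1 : x ≤ b ∧ b ≤ x + h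
  · rw [if_pos c1]
    by_cases c2 : x ≤ a
    · by_cases c3 : h + x ≤ a + b
      · rw [if_pos ⟨c2, c1.1, c3⟩]
        have w1 := mat_W (2 * h) a h x ha (by omega) c2 hxh
        have w2 := mat_W (2 * h) a h (h - (b - x)) ha (by omega) (by omega) (by omega)
        have e1 : h - (h - (b - x)) = b - x := by omega
        have e2 : a - (h - (b - x)) = a + b - x - h := by omega
        have e3 : 2 * h - h = h := by omega
        have e4 : h.choose (h - (b - x)) = h.choose (b - x) := Nat.choose_symm (by omega)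
        rw [e1, e2, e3, e4] at w2
        rw [e3] at w1
        calc _ = ((2 * h).choose a * a.choose x * (2 * h - a).choose (h - x)) *
              ((2 * h).choose a * a.choose (h - (b - x)) * (2 * h - a).choose (b - x)) := by ring
          _ = _ := by rw [w1, w2]; ring
      · rw [if_neg (by tauto), Nat.choose_eq_zero_of_lt (show a < h - (b - x) by omega)]
        simp
    · rw [if_neg (by tauto), Nat.choose_eq_zero_of_lt (show a < x by omega)]
      simp
  · rw [if_neg c1]
    by_cases c2 : x ≤ b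
    · have : h.choose (b - x) = 0 := Nat.choose_eq_zero_of_lt (by omega)
      rw [this]; simp
    · rw [if_neg (by tauto)]; simp

theorem mat_inner (h x b : ℕ) (g : ℕ → ℝ) :
    (∑ y ∈ Finset.range (h + 1), if x + y = b then g y else 0) =
      if x ≤ b ∧ b ≤ x + h then g (b - x) else 0 := by
  by_cases c : x ≤ b ∧ b ≤ x + h
  · rw [if_pos c, Finset.sum_eq_single (b - x)]
    · rw [if_pos (by omega)]
    · intro y _ hy
      rw [if_neg (by omega)]
    · intro hy
      exact absurd (Finset.mem_range.2 (by omega)) hy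
  · rw [if_neg c]
    apply Finset.sum_eq_zero
    intro y hy
    rw [Finset.mem_range] at hy
    rw [if_neg (by omega)]

theorem hyp1 (h a x : ℕ) :
    hyp (2 * h) a h x = ((a.choose x : ℝ) * ((2 * h - a).choose (h - x) : ℝ)) / ((2 * h).choose h : ℝ) := rfl

theorem hyp2 (h a y : ℕ) (ha : a ≤ 2 * h) :
    hyp (2 * h) (2 * h - a) h y =
      (((2 * h - a).choose y : ℝ) * (a.choose (h - y) : ℝ)) / ((2 * h).choose h : ℝ) := by
  unfold hyp
  rw [show 2 * h - (2 * h - a) = a by omega]

theorem mat_M (h : ℕ) (a b : Fin (2 * h + 1)) :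
    M (2 * h) h a b = ∑ x ∈ Finset.range (h + 1), (matF h a b x : ℝ) / ((2 * h).choose h : ℝ) ^ 2 := by
  unfold M
  rw [show 2 * h - h = h by omega]
  apply Finset.sum_congr rfl
  intro x _
  rw [mat_inner h x b (fun y => hyp (2 * h) a h x * hyp (2 * h) (2 * h - a) h y)]
  unfold matF
  by_cases c : x ≤ (b : ℕ) ∧ (b : ℕ) ≤ x + h
  · rw [if_pos c, if_pos c, hyp1, hyp2 h a _ (by omega)]
    push_cast
    ring
  · rw [if_neg c, if_neg c]; simp

theorem ch_pos (h : ℕ) : (0 : ℝ) < ((2 * h).choose h : ℝ) := by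
  exact_mod_cast Nat.choose_pos (by omega)

theorem mat_db (h : ℕ) (a b : Fin (2 * h + 1)) :
    ((2 * h).choose a : ℝ) ^ 2 * M (2 * h) h a b = ((2 * h).choose b : ℝ) ^ 2 * M (2 * h) h b a := by
  rw [mat_M, mat_M, Finset.mul_sum, Finset.mul_sum]
  apply Finset.sum_congr rfl
  intro x hx
  rw [Finset.mem_range] at hx
  have h1 : (((2 * h).choose a : ℝ)) ^ 2 * (matF h a b x : ℝ) =
      ((2 * h).choose h : ℝ) ^ 2 * (matG h a b x : ℝ) := by
    exact_mod_cast matFG h a b x (by omega) (by omega)
  have h2 : (((2 * h).choose b : ℝ)) ^ 2 * (matF h b a x : ℝ) =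
      ((2 * h).choose h : ℝ) ^ 2 * (matG h b a x : ℝ) := by
    exact_mod_cast matFG h b a x (by omega) (by omega)
  rw [← mul_div_assoc, ← mul_div_assoc, h1, h2, matG_symm]

theorem mat_T (h : ℕ) (f : ℕ → ℝ) (a : Fin (2 * h + 1)) :
    ∑ b, M (2 * h) h a b * f b = T h f a := by
  have h1 : ∀ b : Fin (2 * h + 1), M (2 * h) h a b * f b =
      ∑ x ∈ Finset.range (h + 1), ∑ y ∈ Finset.range (h + 1),
        if x + y = (b : ℕ) then hyp (2 * h) a h x * hyp (2 * h) (2 * h - a) h y * f (x + y) else 0 := by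
    intro b
    unfold M
    rw [show 2 * h - h = h by omega, Finset.sum_mul]
    apply Finset.sum_congr rfl
    intro x _
    rw [Finset.sum_mul]
    apply Finset.sum_congr rfl
    intro y _
    by_cases c : x + y = (b : ℕ)
    · rw [if_pos c, if_pos c, c]
    · rw [if_neg c, if_neg c]; simp
  simp only [h1]
  rw [Finset.sum_comm]
  unfold T
  rw [Finset.sum_div]
  apply Finset.sum_congr rfl
  intro x hx
  rw [Finset.mem_range] at hx
  rw [Finset.sum_comm, Finset.sum_div]
  apply Finset.sum_congr rfl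
  intro y hy
  rw [Finset.mem_range] at hy
  rw [Finset.sum_eq_single (⟨x + y, by omega⟩ : Fin (2 * h + 1))]
  · rw [if_pos rfl, hyp1, hyp2 h a _ (by omega)]
    have := (ch_pos h).ne'
    field_simp
  · intro b _ hb
    rw [if_neg]
    intro hc
    apply hb
    exact Fin.ext hc.symm
  · intro hb; exact absurd (Finset.mem_univ _) hb

theorem mat_vdm (h p q : ℕ) :
    ∑ x ∈ Finset.range (h + 1), (p.choose x : ℝ) * (q.choose (h - x) : ℝ) = ((p + q).choose h : ℝ) := by
  rw [Nat.add_choose_eq, Finset.Nat.sum_antidiagonal_eq_sum_range_succ_mk]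
  push_cast
  rfl

theorem mat_one (h : ℕ) (a : ℕ) (ha : a ≤ 2 * h) : T h (fun _ => 1) a = 1 := by
  unfold T
  have hp := (ch_pos h).ne'
  rw [div_eq_one_iff_eq (pow_ne_zero _ hp)]
  simp only [mul_one]
  have h1 := mat_vdm h a (2 * h - a)
  have h2 := mat_vdm h (2 * h - a) a
  rw [show a + (2 * h - a) = 2 * h by omega] at h1
  rw [show 2 * h - a + a = 2 * h by omega] at h2
  rw [sq, ← Finset.sum_mul_sum, h1, h2]

theorem mat_row (h : ℕ) (a : Fin (2 * h + 1)) : ∑ b, M (2 * h) h a b = 1 := by
  have h1 := mat_T h (fun _ => 1) a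
  rw [mat_one h a (by omega)] at h1
  simpa using h1

theorem mat_st1 (h : ℕ) : ∑ b, st (2 * h) b = 1 := by
  have hp : (0 : ℝ) < ((2 * (2 * h)).choose (2 * h) : ℝ) := ch_pos (2 * h)
  unfold st
  rw [← Finset.sum_div, div_eq_one_iff_eq hp.ne']
  rw [Fin.sum_univ_eq_sum_range (fun b => ((2 * h).choose b : ℝ) ^ 2) (2 * h + 1)]
  have h1 := mat_vdm (2 * h) (2 * h) (2 * h)
  rw [show 2 * (2 * h) = 2 * h + 2 * h by ring, ← h1]
  apply Finset.sum_congr rfl
  intro x hx
  rw [Finset.mem_range] at hx
  rw [Nat.choose_symm (by omega : x ≤ 2 * h), sq]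

theorem mat : S_MAT := by
  intro h _
  refine ⟨?_, mat_row h, ?_, mat_st1 h, ?_, mat_T h⟩
  · intro a b
    rw [mat_M]
    apply Finset.sum_nonneg
    intro x _
    positivity
  · intro b
    unfold st
    positivity
  · intro b
    have h1 : ∀ a : Fin (2 * h + 1), st (2 * h) a * M (2 * h) h a b = st (2 * h) b * M (2 * h) h b a := by
      intro a
      unfold st
      have := mat_db h a b
      rw [div_mul_eq_mul_div, div_mul_eq_mul_div, this]
    simp only [h1]
    rw [← Finset.mul_sum, mat_row, mul_one]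

end Pool.Agent.R548.BL
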