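import Pool.Agent.R548.BL.Defs

set_option autoImplicit false

namespace Pool.Agent.R548.BL

namespace MOMaux
open Finset

theorem vdm (K L j : ℕ) :
    ∑ x ∈ range (j + 1), (K.choose x : ℝ) * (L.choose (j - x) : ℝ) = ((K + L).choose j : ℝ) := by
  rw [Nat.add_choose_eq, Finset.Nat.sum_antidiagonal_eq_sum_range_succ_mk]
  push_cast
  rfl

/-- absorption -/
theorem R1 (K L j : ℕ) (G : ℕ → ℝ) :
    ∑ x ∈ range (j + 2), ((K + 1).choose x : ℝ) * (L.choose (j + 1 - x) : ℝ) * (x * G x)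
      = ((K : ℝ) + 1) * ∑ x ∈ range (j + 1), (K.choose x : ℝ) * (L.choose (j - x) : ℝ) * G (x + 1) := by
  rw [sum_range_succ', mul_sum]
  have e : ∀ x, ((K + 1).choose (x + 1) : ℝ) * (L.choose (j + 1 - (x + 1)) : ℝ) *
      (((x + 1 : ℕ) : ℝ) * G (x + 1))
      = ((K : ℝ) + 1) * ((K.choose x : ℝ) * (L.choose (j - x) : ℝ) * G (x + 1)) := by
    intro x
    rw [Nat.add_sub_add_right]
    have h : ((K : ℝ) + 1) * (K.choose x : ℝ) = ((K + 1).choose (x + 1) : ℝ) * ((x : ℝ) + 1) := by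
      exact_mod_cast Nat.add_one_mul_choose_eq K x
    push_cast
    linear_combination (-(L.choose (j - x) : ℝ) * G (x + 1)) * h
  rw [sum_congr rfl fun x _ => e x]
  simp

theorem M1 (K L j : ℕ) :
    ((K : ℝ) + L) * ∑ x ∈ range (j + 1), (K.choose x : ℝ) * (L.choose (j - x) : ℝ) * x
      = (j : ℝ) * K * ((K + L).choose j : ℝ) := by
  rcases j with _ | j
  · simp
  rcases K with _ | K
  · have : ∑ x ∈ range (j + 1 + 1), (Nat.choose 0 x : ℝ) * (L.choose (j + 1 - x) : ℝ) * x = 0 := by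
      refine sum_eq_zero fun x _ => ?_
      rcases x with _ | x
      · simp
      · simp
    rw [this]
    simp
  have h1 := R1 K L j (fun _ => 1)
  simp only [mul_one] at h1
  rw [show j + 1 + 1 = j + 2 from rfl, h1, vdm]
  have h2 : ((K : ℝ) + L + 1) * ((K + L).choose j : ℝ) = ((K + L + 1).choose (j + 1) : ℝ) * ((j : ℝ) + 1) := by
    exact_mod_cast Nat.add_one_mul_choose_eq (K + L) j
  rw [show K + 1 + L = K + L + 1 by ring]
  push_cast
  linear_combination ((K : ℝ) + 1) * h2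

theorem M2 (K L j : ℕ) :
    ((K : ℝ) + L) * ((K : ℝ) + L - 1) *
      ∑ x ∈ range (j + 1), (K.choose x : ℝ) * (L.choose (j - x) : ℝ) * (x * ((x : ℝ) - 1))
      = (j : ℝ) * (j - 1) * K * (K - 1) * ((K + L).choose j : ℝ) := by
  rcases j with _ | j
  · simp
  rcases K with _ | K
  · have : ∑ x ∈ range (j + 1 + 1), (Nat.choose 0 x : ℝ) * (L.choose (j + 1 - x) : ℝ) *
        (x * ((x : ℝ) - 1)) = 0 := by
      refine sum_eq_zero fun x _ => ?_
      rcases x with _ | x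
      · simp
      · simp
    rw [this]
    simp
  have h1 := R1 K L j (fun x => (x : ℝ) - 1)
  have h1' : ∑ x ∈ range (j + 1), (K.choose x : ℝ) * (L.choose (j - x) : ℝ) * (((x + 1 : ℕ) : ℝ) - 1)
      = ∑ x ∈ range (j + 1), (K.choose x : ℝ) * (L.choose (j - x) : ℝ) * x := by
    refine sum_congr rfl fun x _ => ?_
    push_cast
    ring
  rw [show j + 1 + 1 = j + 2 from rfl, h1, h1']
  have h3 := M1 K L j
  have h2 : ((K : ℝ) + L + 1) * ((K + L).choose j : ℝ) = ((K + L + 1).choose (j + 1) : ℝ) * ((j : ℝ) + 1) := by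
    exact_mod_cast Nat.add_one_mul_choose_eq (K + L) j
  rw [show K + 1 + L = K + L + 1 by ring]
  push_cast
  linear_combination ((K : ℝ) + 1) * ((K : ℝ) + L + 1) * h3 + ((K : ℝ) + 1) * j * K * h2

end MOMaux

open Finset in
theorem mom : S_MOM := by
  intro K L j hj hN hjN
  have v := MOMaux.vdm K L j
  have m1 := MOMaux.M1 K L j
  have m2 := MOMaux.M2 K L j
  have hN' : (2 : ℝ) ≤ (K : ℝ) + L := by exact_mod_cast hN
  have hN0 : ((K : ℝ) + L) ≠ 0 := by linarith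
  have hN1 : ((K : ℝ) + L - 1) ≠ 0 := by
    have : (0 : ℝ) < (K : ℝ) + L - 1 := by linarith
    exact this.ne'
  have m1' : ∑ x ∈ range (j + 1), (K.choose x : ℝ) * (L.choose (j - x) : ℝ) * x
      = (j : ℝ) * K / ((K : ℝ) + L) * ((K + L).choose j : ℝ) := by
    field_simp
    linarith
  have m2' : ∑ x ∈ range (j + 1), (K.choose x : ℝ) * (L.choose (j - x) : ℝ) * (x * ((x : ℝ) - 1))
      = (j : ℝ) * (j - 1) * K * (K - 1) / (((K : ℝ) + L) * ((K : ℝ) + L - 1)) *
        ((K + L).choose j : ℝ) := by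
    rw [div_mul_eq_mul_div, eq_div_iff (mul_ne_zero hN0 hN1), ← m2]
    ring
  refine ⟨v, ?_, ?_⟩
  · have : ∑ x ∈ range (j + 1), (K.choose x : ℝ) * (L.choose (j - x) : ℝ) *
      ((x : ℝ) - j * K / ((K : ℝ) + L))
      = ∑ x ∈ range (j + 1), (K.choose x : ℝ) * (L.choose (j - x) : ℝ) * x
        - j * K / ((K : ℝ) + L) * ∑ x ∈ range (j + 1), (K.choose x : ℝ) * (L.choose (j - x) : ℝ) := by
      rw [mul_sum, ← sum_sub_distrib]
      refine sum_congr rfl fun x _ => ?_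
      ring
    rw [this, m1', v]
    ring
  · set μ : ℝ := j * K / ((K : ℝ) + L) with hμ
    have : ∑ x ∈ range (j + 1), (K.choose x : ℝ) * (L.choose (j - x) : ℝ) * ((x : ℝ) - μ) ^ 2
      = ∑ x ∈ range (j + 1), (K.choose x : ℝ) * (L.choose (j - x) : ℝ) * (x * ((x : ℝ) - 1))
        + (1 - 2 * μ) * ∑ x ∈ range (j + 1), (K.choose x : ℝ) * (L.choose (j - x) : ℝ) * x
        + μ ^ 2 * ∑ x ∈ range (j + 1), (K.choose x : ℝ) * (L.choose (j - x) : ℝ) := by
      rw [mul_sum, mul_sum, ← sum_add_distrib, ← sum_add_distrib]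
      refine sum_congr rfl fun x _ => ?_
      ring
    rw [this, m1', m2', v]
    have hkey : (j : ℝ) * (j - 1) * K * (K - 1) / (((K : ℝ) + L) * ((K : ℝ) + L - 1))
        + (1 - 2 * μ) * μ + μ ^ 2 ≤ (j : ℝ) / 4 := by
      have e : (j : ℝ) * (j - 1) * K * (K - 1) / (((K : ℝ) + L) * ((K : ℝ) + L - 1))
        + (1 - 2 * μ) * μ + μ ^ 2
        = (j : ℝ) * (K * L * ((K : ℝ) + L - j)) / (((K : ℝ) + L) ^ 2 * ((K : ℝ) + L - 1)) := by
        rw [hμ]
        field_simp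
        ring
      rw [e, div_le_div_iff₀ (by
        have : (0 : ℝ) < (K : ℝ) + L - 1 := by linarith
        have : (0 : ℝ) < (K : ℝ) + L := by linarith
        positivity) (by norm_num)]
      have hj1 : (1 : ℝ) ≤ j := by exact_mod_cast hj
      have hjN' : (j : ℝ) ≤ (K : ℝ) + L := by exact_mod_cast hjN
      have hK0 : (0 : ℝ) ≤ K := Nat.cast_nonneg K
      have hL0 : (0 : ℝ) ≤ L := Nat.cast_nonneg L
      have h4 : 4 * ((K : ℝ) * L) ≤ ((K : ℝ) + L) ^ 2 := by nlinarith [sq_nonneg ((K : ℝ) - L)]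
      have h5 : 4 * ((K : ℝ) * L) * ((K : ℝ) + L - j) ≤ ((K : ℝ) + L) ^ 2 * ((K : ℝ) + L - 1) :=
        mul_le_mul h4 (by linarith) (by linarith) (by positivity)
      have h6 := mul_le_mul_of_nonneg_left h5 (by linarith : (0 : ℝ) ≤ j)
      linarith
    have hC : (0 : ℝ) ≤ ((K + L).choose j : ℝ) := Nat.cast_nonneg _
    have := mul_le_mul_of_nonneg_right hkey hC
    calc _ = ((j : ℝ) * (j - 1) * K * (K - 1) / (((K : ℝ) + L) * ((K : ℝ) + L - 1))
        + (1 - 2 * μ) * μ + μ ^ 2) * ((K + L).choose j : ℝ) := by ring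
      _ ≤ _ := this

end Pool.Agent.R548.BL
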